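import Pool.Agent.P.MP_0b48ca_al.Ext2

/-! A group of rank two with only class-preserving automorphisms is special; coordinates on it. -/

namespace Pool.Agent.P.MP_0b48ca_al

open Function
open scoped commutatorElement

section
variable {G : Type} [Group G]

lemma cm_mem (x y : G) : ⁅x, y⁆ ∈ commutator G :=
  Subgroup.commutator_mem_commutator (Subgroup.mem_top x) (Subgroup.mem_top y)

lemma cm_central (hc : commutator G ≤ Subgroup.center G) (x y z : G) :
    ⁅x, y⁆ * z = z * ⁅x, y⁆ := (Subgroup.mem_center_iff.1 (hc (cm_mem x y)) z).symm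

lemma cm_mul_left (hc : commutator G ≤ Subgroup.center G) (x y z : G) :
    ⁅x * y, z⁆ = ⁅x, z⁆ * ⁅y, z⁆ := by
  rw [commutatorElement_mul_left_eq_conj_mul, ← cm_central hc y z x, mul_inv_cancel_right,
    cm_central hc]

lemma cm_mul_right (hc : commutator G ≤ Subgroup.center G) (x y z : G) :
    ⁅x, y * z⁆ = ⁅x, y⁆ * ⁅x, z⁆ := by
  rw [commutatorElement_mul_right_eq_mul_conj, mul_assoc, mul_assoc, cm_central hc x z,
    mul_inv_cancel_left]

lemma cm_pow_left (hc : commutator G ≤ Subgroup.center G) (x z : G) (n : ℕ) :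
    ⁅x ^ n, z⁆ = ⁅x, z⁆ ^ n := by
  induction n with
  | zero => simp
  | succ n ih => rw [pow_succ, cm_mul_left hc, ih, pow_succ]

lemma mul_pow_cm (hc : commutator G ≤ Subgroup.center G) (x y : G) (n : ℕ) :
    (x * y) ^ n = x ^ n * y ^ n * ⁅y, x⁆ ^ n.choose 2 := by
  induction n with
  | zero => simp
  | succ n ih =>
    have h1 : y ^ n * x = ⁅y, x⁆ ^ n * (x * y ^ n) := by
      rw [← cm_pow_left hc, commutatorElement_def]; group
    have h2 : (n + 1).choose 2 = n.choose 2 + n := by
      rw [Nat.choose_succ_succ' n 1, Nat.choose_one_right, add_comm]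
    rw [pow_succ, ih, h2, pow_add ⁅y, x⁆, pow_succ, pow_succ]
    have hz : ∀ k z, ⁅y, x⁆ ^ k * z = z * ⁅y, x⁆ ^ k := fun k z =>
      (Commute.pow_left (cm_central hc y x z) k)
    set a := ⁅y, x⁆ ^ n.choose 2
    set b := ⁅y, x⁆ ^ n
    have ha : ∀ x, a * x = x * a := hz _
    have hb : ∀ x, b * x = x * b := hz _
    calc x ^ n * y ^ n * a * (x * y) = x ^ n * (y ^ n * x) * y * a := by
          rw [mul_assoc (x ^ n * y ^ n), ha]; simp only [mul_assoc]
      _ = x ^ n * x * (y ^ n * y) * (a * b) := by
          rw [h1, hb, ha b]; simp only [mul_assoc]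
          rw [← mul_assoc b y a, hb y, mul_assoc]

/-- central automorphisms -/
lemma central_mem [Finite G] (hG : AllClassPreserving G) (ℓ : G → G)
    (hm : ∀ x y, ℓ (x * y) = ℓ x * ℓ y) (hz : ∀ x y, ℓ x * y = y * ℓ x)
    (hi : ∀ x, x * ℓ x = 1 → x = 1) (x : G) : ℓ x ∈ commutator G := by
  let φ : G →* G := MonoidHom.mk' (fun x => x * ℓ x) (by
    intro x y
    rw [hm]
    simp only [mul_assoc]
    rw [← mul_assoc (ℓ x) y, hz x y, mul_assoc])
  have hφ : Injective φ := (injective_iff_map_eq_one φ).2 hi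
  let α : MulAut G := MulEquiv.ofBijective φ (Finite.injective_iff_bijective.1 hφ)
  obtain ⟨c, hc⟩ := isConj_iff.1 (hG α x)
  have hc : c * x * c⁻¹ = x * ℓ x := hc
  have : ℓ x = ⁅x⁻¹, c⁆ := by
    rw [commutatorElement_def, inv_inv, mul_assoc, mul_assoc, ← mul_assoc c, hc,
      inv_mul_cancel_left]
  rw [this]
  exact cm_mem _ _

lemma pow_mem_aux [Finite G] {p : ℕ} [Fact p.Prime] (hp : IsPGroup p G)
    (hc : commutator G ≤ Subgroup.center G) (he : ∀ x ∈ commutator G, x ^ p = 1)
    (hG : AllClassPreserving G) (m : ℕ) (h1 : p ∣ m) (h2 : p ∣ m.choose 2) (x : G) :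
    x ^ m ∈ commutator G := by
  apply central_mem hG (fun x => x ^ m)
  · intro x y
    obtain ⟨k, hk⟩ := h2
    rw [mul_pow_cm hc, hk, pow_mul, he _ (cm_mem _ _), one_pow, mul_one]
  · intro x y
    obtain ⟨k, rfl⟩ := h1
    rw [← commutatorElement_eq_one_iff_mul_comm, cm_pow_left hc, pow_mul, he _ (cm_mem _ _),
      one_pow]
  · intro x hx
    rw [← pow_succ'] at hx
    obtain ⟨k, hk⟩ := hp x
    have : (m + 1).Coprime (p ^ k) := by
      apply Nat.Coprime.pow_right
      obtain ⟨j, rfl⟩ := h1
      simp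
    have h3 := orderOf_dvd_of_pow_eq_one hx
    have h4 := orderOf_dvd_of_pow_eq_one hk
    exact orderOf_eq_one_iff.1 (Nat.eq_one_of_dvd_coprimes this h3 h4)

lemma pow_mem [Finite G] {p : ℕ} [hpp : Fact p.Prime] (hp : IsPGroup p G)
    (hc : commutator G ≤ Subgroup.center G) (he : ∀ x ∈ commutator G, x ^ p = 1)
    (hG : AllClassPreserving G) (x : G) : x ^ p ∈ commutator G := by
  by_cases h2 : p = 2
  swap
  · exact pow_mem_aux hp hc he hG p dvd_rfl
      (hpp.out.dvd_choose_self (by norm_num) (lt_of_le_of_ne hpp.out.two_le (Ne.symm h2))) x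
  subst h2
  have h4 : ∀ y : G, y ^ 4 ∈ commutator G := pow_mem_aux hp hc he hG 4 (by norm_num) (by decide)
  by_contra hx
  obtain ⟨ι, _, n, hn, ⟨e⟩⟩ := CommGroup.equiv_prod_multiplicative_zmod_of_finite
    (Abelianization G)
  have hx1 : e (Abelianization.of (x ^ 2)) ≠ 1 := by
    rw [Ne, e.map_eq_one_iff, ← MonoidHom.mem_ker, Abelianization.ker_of]
    exact hx
  obtain ⟨i, hi⟩ : ∃ i, e (Abelianization.of (x ^ 2)) i ≠ 1 := by
    by_contra h
    push Not at h
    exact hx1 (funext h)
  let χ : G → ZMod (n i) := fun y => (e (Abelianization.of y) i).toAdd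
  have χmul : ∀ a b, χ (a * b) = χ a + χ b := by
    intro a b; simp [χ]
  have χpow : ∀ a (k : ℕ), χ (a ^ k) = k * χ a := by
    intro a k; simp [χ]
  have hχ : (2 : ZMod (n i)) * χ x ≠ 0 := by
    have := χpow x 2
    push_cast at this
    rw [← this]
    exact hi
  have hn4 : n i = 4 := by
    classical
    have hd : n i ∣ 4 := by
      obtain ⟨y, hy⟩ : ∃ y, e (Abelianization.of y) = Pi.mulSingle i (Multiplicative.ofAdd 1) := by
        obtain ⟨y, hy⟩ := QuotientGroup.mk_surjective
          (e.symm (Pi.mulSingle i (Multiplicative.ofAdd 1)))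
        refine ⟨y, ?_⟩
        rw [← MulEquiv.eq_symm_apply]
        exact hy
      have h5 : χ y = 1 := by simp [χ, hy]
      have h6 : χ (y ^ 4) = 0 := by
        have : Abelianization.of (y ^ 4) = 1 := by
          rw [← MonoidHom.mem_ker, Abelianization.ker_of]; exact h4 y
        simp only [χ]
        rw [this]; simp
      rw [χpow, h5, mul_one] at h6
      exact (ZMod.natCast_eq_zero_iff 4 _).1 h6
    have h1 := hn i
    have hle := Nat.le_of_dvd (by norm_num) hd
    have h22 : n i ≠ 2 := by
      intro h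
      apply hχ
      have : ((2 : ℕ) : ZMod (n i)) = 0 := (ZMod.natCast_eq_zero_iff 2 _).2 (h ▸ dvd_rfl)
      push_cast at this
      rw [this, zero_mul]
    have h33 : n i ≠ 3 := by
      intro h; rw [h] at hd; norm_num at hd
    omega
  clear_value χ
  revert χ
  rw [hn4]
  intro χ χmul χpow hχ
  set u := x ^ 2 with hu
  have hu4 : u ^ 2 ∈ commutator G := by rw [hu, ← pow_mul]; exact h4 x
  have hu8 : u ^ 4 = 1 := by
    rw [show (4 : ℕ) = 2 * 2 from rfl, pow_mul]; exact he _ hu4
  have hcen : ∀ y, u * y = y * u := by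
    intro y
    rw [← commutatorElement_eq_one_iff_mul_comm, hu, cm_pow_left hc, he _ (cm_mem _ _)]
  have hℓ := central_mem hG (fun y => u ^ (χ y).val) (by
      intro a b
      rw [χmul, ZMod.val_add, ← pow_add, ← pow_eq_pow_mod _ hu8])
    (fun a b => Commute.pow_left (hcen b) _) (by
      intro y hy
      have h7 := congrArg χ hy
      have h0 : χ 1 = 0 := by simpa using χpow 1 0
      rw [χmul, χpow, hu, χpow, h0, ZMod.natCast_zmod_val] at h7
      have h8 : χ y = 0 := by
        revert h7
        generalize χ y = a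
        generalize χ x = b
        revert a b
        decide
      rw [h8] at hy
      simpa using hy) x
  have h9 : (χ x).val = 1 ∨ (χ x).val = 3 := by
    revert hχ
    generalize χ x = b
    revert b
    decide
  apply hx
  rcases h9 with h | h
  · simpa [h] using hℓ
  · rw [h, pow_succ] at hℓ
    exact (Subgroup.mul_mem_cancel_left _ hu4).1 hℓ

end

lemma exists_bilin {p : ℕ} {V W : Type} [AddCommGroup V] [Module (ZMod p) V] [AddCommGroup W]
    [Module (ZMod p) W] (B : V → V → W) (h1 : ∀ a b c, B (a + b) c = B a c + B b c)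
    (h2 : ∀ a b c, B a (b + c) = B a b + B a c) :
    ∃ ω : V →ₗ[ZMod p] V →ₗ[ZMod p] W, ∀ u v, ω u v = B u v :=
  ⟨LinearMap.mk₂ (ZMod p) B h1
    (fun c a b => ZMod.map_smul (AddMonoidHom.mk' (fun a => B a b) (fun a a' => h1 a a' b)) c a) h2
    (fun c a b => ZMod.map_smul (AddMonoidHom.mk' (fun b => B a b) (fun b b' => h2 a b b')) c b),
    fun _ _ => rfl⟩

lemma Ext.mul_comm_of_subsingleton {p : ℕ} {G V W : Type} [Group G] [AddCommGroup V]
    [Module (ZMod p) V] [AddCommGroup W] [Module (ZMod p) W] {ω : V →ₗ[ZMod p] V →ₗ[ZMod p] W}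
    {q : V → W} (E : Ext p G V W ω q) (h : Subsingleton V) (x y : G) : x * y = y * x := by
  rw [E.comm x y, Subsingleton.elim (E.ν x) 0, map_zero, LinearMap.zero_apply, E.ι_zero, one_mul]

theorem exists_ext {p : ℕ} [Fact p.Prime] {G : Type} [Group G] (h : RankTwo p G)
    (hG : AllClassPreserving G) :
    ∃ (V : Type) (_ : AddCommGroup V) (_ : Module (ZMod p) V) (_ : Finite V) (_ : Nontrivial V)
      (ω : V →ₗ[ZMod p] V →ₗ[ZMod p] ZMod p × ZMod p) (q : V → ZMod p × ZMod p),
      Nonempty (Ext p G V (ZMod p × ZMod p) ω q) := by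
  obtain ⟨_, hp, hc, ⟨e⟩⟩ := h
  have he : ∀ x ∈ commutator G, x ^ p = 1 := by
    intro x hx
    have : (⟨x, hx⟩ : commutator G) ^ p = 1 := by
      apply e.injective
      rw [map_pow, map_one]
      apply Multiplicative.toAdd.injective
      rw [toAdd_pow, ← Nat.cast_smul_eq_nsmul (ZMod p), ZMod.natCast_self, zero_smul, toAdd_one]
    exact congrArg Subtype.val this
  have hpow := pow_mem hp hc he hG
  have hker : ∀ x, Abelianization.of x = 1 ↔ x ∈ commutator G := by
    intro x
    rw [← MonoidHom.mem_ker, Abelianization.ker_of]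
  have hsurj : Surjective (Abelianization.of : G → Abelianization G) := QuotientGroup.mk_surjective
  let : Module (ZMod p) (Additive (Abelianization G)) := AddCommGroup.zmodModule (by
    intro a
    obtain ⟨x, hx⟩ := hsurj a.toMul
    apply Additive.toMul.injective
    rw [toMul_nsmul, ← hx, ← map_pow, toMul_zero, hker]
    exact hpow x)
  let B0 : G → G →* Multiplicative (ZMod p × ZMod p) := fun x =>
    MonoidHom.mk' (fun y => e ⟨⁅x, y⁆, cm_mem x y⟩) (by
      intro y z
      rw [← map_mul]
      congr 1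
      exact Subtype.ext (cm_mul_right hc x y z))
  let B1 : G →* (Abelianization G →* Multiplicative (ZMod p × ZMod p)) :=
    MonoidHom.mk' (fun x => Abelianization.lift (B0 x)) (by
      intro x y
      apply MonoidHom.ext
      intro a
      obtain ⟨z, rfl⟩ := hsurj a
      simp only [MonoidHom.mul_apply, Abelianization.lift_apply_of, B0, MonoidHom.mk'_apply]
      rw [← map_mul]
      congr 1
      exact Subtype.ext (cm_mul_left hc x y z))
  let B2 := Abelianization.lift B1
  obtain ⟨ω, hω⟩ := exists_bilin (p := p) (V := Additive (Abelianization G))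
    (fun a b => (B2 a.toMul b.toMul).toAdd) (by intro a b c; simp) (by intro a b c; simp)
  choose s hs using id hsurj
  have hpow2 : ∀ x, s (Abelianization.of x) ^ p = x ^ p := by
    intro x
    have h1 : x⁻¹ * s (Abelianization.of x) ∈ commutator G := by
      rw [← hker, map_mul, hs]; simp
    have h2 : Commute x (x⁻¹ * s (Abelianization.of x)) :=
      Subgroup.mem_center_iff.1 (hc h1) x
    conv_lhs => rw [← mul_inv_cancel_left x (s _), h2.mul_pow, he _ h1, mul_one]
  let E : Ext p G (Additive (Abelianization G)) (ZMod p × ZMod p) ω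
      (fun a => (e ⟨s a.toMul ^ p, hpow _⟩).toAdd) :=
    { ν := fun x => Additive.ofMul (Abelianization.of x)
      ι := fun w => (e.symm (Multiplicative.ofAdd w) : commutator G)
      ν_mul := by intro x y; simp
      ι_add := by intro a b; simp [ofAdd_add]
      ν_surj := fun a => ⟨s a.toMul, by simp [hs]⟩
      ι_inj := by
        intro a b hab
        simpa using hab
      ker := by
        intro x
        rw [ofMul_eq_zero, hker]
        constructor
        · intro hx
          exact ⟨(e ⟨x, hx⟩).toAdd, by simp⟩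
        · rintro ⟨w, rfl⟩
          exact Subtype.property _
      central := fun w x => (Subgroup.mem_center_iff.1 (hc (Subtype.property _)) x).symm
      comm := by
        intro x y
        simp [hω, B2, B1, B0, commutatorElement_def]
      pow := by
        intro x
        simp [hpow2] }
  refine ⟨Additive (Abelianization G), inferInstance, inferInstance,
    Finite.of_surjective _ E.ν_surj, ?_, _, _, ⟨E⟩⟩
  by_contra hV
  rw [not_nontrivial_iff_subsingleton] at hV
  have : commutator G = ⊥ := by
    rw [eq_bot_iff, commutator_def, Subgroup.commutator_le]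
    intro x _ y _
    rw [Subgroup.mem_bot, commutatorElement_eq_one_iff_mul_comm]
    exact E.mul_comm_of_subsingleton hV x y
  have h1 : E.ι (1, 0) = E.ι 0 := by
    rw [E.ι_zero, ← Subgroup.mem_bot, ← this]
    exact Subtype.property _
  simpa using E.ι_inj h1

end Pool.Agent.P.MP_0b48ca_al
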