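import Mathlib

/-!
Definitions for the classification of the class-2 finite `p`-groups with commutator subgroup
`C_p × C_p` all of whose automorphisms are class-preserving.
-/

namespace Pool.Agent.P.MP_0b48ca_al

open Polynomial

/-- Every automorphism of `G` sends each element into its own conjugacy class. -/
def AllClassPreserving (G : Type) [Group G] : Prop :=
  ∀ (α : MulAut G) (x : G), IsConj x (α x)

/-- `G` is a finite `p`-group of nilpotency class 2 whose commutator subgroup is `C_p × C_p`. -/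
def RankTwo (p : ℕ) (G : Type) [Group G] : Prop :=
  Finite G ∧ IsPGroup p G ∧ commutator G ≤ Subgroup.center G ∧
    Nonempty (commutator G ≃* Multiplicative (ZMod p × ZMod p))

/-- `coef f g k` is the coefficient of `X ^ (n - 1)` in the remainder of `g * X ^ k` modulo the
monic polynomial `f` of degree `n`; equivalently `g / f = ∑ k, coef f g k * X ^ (-k-1)`. -/
noncomputable def coef {K : Type} [Field K] (f g : K[X]) (k : ℕ) : K :=
  ((g * X ^ k) %ₘ f).coeff (f.natDegree - 1)

/-- Generators `x i`, `y i` (`i < n`), `z`, `w`. -/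
inductive Gen (n : ℕ) : Type
  | x (i : Fin n) : Gen n
  | y (i : Fin n) : Gen n
  | z : Gen n
  | w : Gen n

/-- The group commutator `a b a⁻¹ b⁻¹`. -/
def cm {G : Type} [Group G] (a b : G) : G := a * b * a⁻¹ * b⁻¹

/-- The relators of the group attached to `(f, g)`, with `c k = coef f g k`:
`z`, `w` are central of order dividing `p`, the `x i` commute, the `y i` commute,
`[x i, y j] = z ^ c (i + j) * w ^ c (i + j + 1)`, `x i ^ p = w ^ c i`, and
`y i ^ p = z ^ (- c i)` for odd `p`, `y i ^ 2 = 1` for `p = 2`. -/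
def rels {p : ℕ} [Fact p.Prime] (f g : (ZMod p)[X]) : Set (FreeGroup (Gen f.natDegree)) :=
  {r | (∃ a, r = cm (FreeGroup.of Gen.z) (FreeGroup.of a)) ∨
    (∃ a, r = cm (FreeGroup.of Gen.w) (FreeGroup.of a)) ∨
    r = FreeGroup.of Gen.z ^ p ∨ r = FreeGroup.of Gen.w ^ p ∨
    (∃ i j, r = cm (FreeGroup.of (Gen.x i)) (FreeGroup.of (Gen.x j))) ∨
    (∃ i j, r = cm (FreeGroup.of (Gen.y i)) (FreeGroup.of (Gen.y j))) ∨
    (∃ i j : Fin f.natDegree, r = cm (FreeGroup.of (Gen.x i)) (FreeGroup.of (Gen.y j)) *
      (FreeGroup.of Gen.z ^ (coef f g (i + j)).val *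
        FreeGroup.of Gen.w ^ (coef f g (i + j + 1)).val)⁻¹) ∨
    (∃ i : Fin f.natDegree,
      r = FreeGroup.of (Gen.x i) ^ p * (FreeGroup.of Gen.w ^ (coef f g i).val)⁻¹) ∨
    (∃ i : Fin f.natDegree,
      r = FreeGroup.of (Gen.y i) ^ p * FreeGroup.of Gen.z ^ (if p = 2 then 0 else (coef f g i).val))}

/-- The group given by the generators `Gen n` and the relators `rels f g`. -/
abbrev Grp {p : ℕ} [Fact p.Prime] (f g : (ZMod p)[X]) : Type := PresentedGroup (rels f g)

/-- The substitution `(a + b X) ^ n * f ((c + d X) / (a + b X))`: the action of the matrix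
with rows `(a, b)`, `(c, d)` on the binary form of degree `n` attached to `f`. -/
noncomputable def mob {K : Type} [CommRing K] (a b c d : K) (n : ℕ) (f : K[X]) : K[X] :=
  ∑ i ∈ Finset.range (n + 1), C (f.coeff i) * (C c + C d * X) ^ i * (C a + C b * X) ^ (n - i)

/-- Admissible parameters: `f` monic, nonconstant, without roots in the prime field, `g` of smaller
degree and coprime to `f`; for `p = 2`, `f` is squarefree and `g = 1`. -/
def Admissible {p : ℕ} [Fact p.Prime] (f g : (ZMod p)[X]) : Prop :=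
  f.Monic ∧ 0 < f.natDegree ∧ (∀ a, f.eval a ≠ 0) ∧ g.degree < f.degree ∧ IsCoprime f g ∧
    (p = 2 → Squarefree f ∧ g = 1)

/-- The matrix with rows `(a, b)`, `(c, d)` carries `(f', g')` to `(f, g)`: for odd `p` the degree
`-1` homogeneous rational functions `G' / F'` and `G / F` correspond; for `p = 2` the forms `F'`
and `F` correspond. -/
def Related {p : ℕ} [Fact p.Prime] (a b c d : ZMod p) (f g f' g' : (ZMod p)[X]) : Prop :=
  if p = 2 then mob a b c d f'.natDegree f' = f
  else mob a b c d (f'.natDegree - 1) g' * f = g * mob a b c d f'.natDegree f'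

/-- The stabiliser of `(f, g)` in `GL₂(𝔽_p)` is trivial. -/
def Rigid {p : ℕ} [Fact p.Prime] (f g : (ZMod p)[X]) : Prop :=
  ∀ a b c d : ZMod p, a * d - b * c ≠ 0 → Related a b c d f g f g →
    a = 1 ∧ b = 0 ∧ c = 0 ∧ d = 1

end Pool.Agent.P.MP_0b48ca_al
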