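import Pool.Agent.P.MP_0b48ca_al.Ext2

/-! Existence of the central extension with prescribed commutator and power maps. -/

namespace Pool.Agent.P.MP_0b48ca_al

open Function Module

set_option linter.unusedSectionVars false

section
variable {p : ℕ} {ι V W : Type} [Fintype ι] [AddCommGroup V] [Module (ZMod p) V]
  [AddCommGroup W] [Module (ZMod p) W]

/-- reduction of integer coordinate vectors -/
noncomputable def bar (e : Basis ι (ZMod p) V) : (ι → ℤ) →+ V :=
  AddMonoidHom.mk' (fun a => e.equivFun.symm (fun i => (a i : ZMod p))) (by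
    intro a b
    rw [← map_add]
    congr 1
    ext i
    simp)

lemma bar_surj (e : Basis ι (ZMod p) V) : Surjective (bar e) := by
  intro v
  refine ⟨fun i => (e.equivFun v i).cast, ?_⟩
  change e.equivFun.symm _ = v
  rw [LinearEquiv.symm_apply_eq]
  ext i
  simp

lemma bar_eq_zero (e : Basis ι (ZMod p) V) (a : ι → ℤ) (h : bar e a = 0) : ∃ b, a = p • b := by
  have h : e.equivFun.symm (fun i => (a i : ZMod p)) = 0 := h
  rw [map_eq_zero_iff _ e.equivFun.symm.injective] at h
  have : ∀ i, ∃ b, a i = p * b := fun i =>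
    (ZMod.intCast_zmod_eq_zero_iff_dvd _ _).1 (congrFun h i)
  choose b hb using this
  exact ⟨b, by ext i; simp [hb]⟩

lemma psmul (v : V) : p • v = 0 := by
  rw [← Nat.cast_smul_eq_nsmul (ZMod p), ZMod.natCast_self, zero_smul]

/-- a torsion-free-by-central cover -/
structure Nil (e : Basis ι (ZMod p) V) (β : V →ₗ[ZMod p] V →ₗ[ZMod p] W) where
  a : ι → ℤ
  w : W

variable {e : Basis ι (ZMod p) V} {β : V →ₗ[ZMod p] V →ₗ[ZMod p] W}

lemma Nil.ext' {x y : Nil e β} (h1 : x.a = y.a) (h2 : x.w = y.w) : x = y := by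
  cases x; cases y; simp_all

noncomputable instance : Mul (Nil e β) :=
  ⟨fun x y => ⟨x.a + y.a, x.w + y.w + β (bar e x.a) (bar e y.a)⟩⟩
instance : One (Nil e β) := ⟨⟨0, 0⟩⟩
noncomputable instance : Inv (Nil e β) :=
  ⟨fun x => ⟨-x.a, -x.w + β (bar e x.a) (bar e x.a)⟩⟩

@[simp] lemma Nil.mul_a (x y : Nil e β) : (x * y).a = x.a + y.a := rfl
@[simp] lemma Nil.mul_w (x y : Nil e β) :
    (x * y).w = x.w + y.w + β (bar e x.a) (bar e y.a) := rfl
@[simp] lemma Nil.one_a : (1 : Nil e β).a = 0 := rfl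
@[simp] lemma Nil.one_w : (1 : Nil e β).w = 0 := rfl
@[simp] lemma Nil.inv_a (x : Nil e β) : (x⁻¹).a = -x.a := rfl
@[simp] lemma Nil.inv_w (x : Nil e β) : (x⁻¹).w = -x.w + β (bar e x.a) (bar e x.a) := rfl

noncomputable instance : Group (Nil e β) := Group.ofLeftAxioms
  (by
    intro x y z
    apply Nil.ext'
    · simp [add_assoc]
    · simp; abel)
  (by intro x; apply Nil.ext' <;> simp)
  (by intro x; apply Nil.ext' <;> simp)

lemma Nil.pow_eq (x : Nil e β) (n : ℕ) :
    x ^ n = ⟨n • x.a, n • x.w + n.choose 2 • β (bar e x.a) (bar e x.a)⟩ := by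
  induction n with
  | zero => apply Nil.ext' <;> simp
  | succ n ih =>
    have h2 : (n + 1).choose 2 = n.choose 2 + n := by
      rw [Nat.choose_succ_succ' n 1, Nat.choose_one_right, add_comm]
    rw [pow_succ, ih, h2]
    apply Nil.ext'
    · simp only [Nil.mul_a, succ_nsmul]
    · simp only [Nil.mul_w, map_nsmul, LinearMap.smul_apply, succ_nsmul, add_nsmul]
      abel

end

theorem exists_model {p : ℕ} [Fact p.Prime] {ι V W : Type} [Fintype ι] [AddCommGroup V]
    [Module (ZMod p) V] [AddCommGroup W] [Module (ZMod p) W] (e : Basis ι (ZMod p) V)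
    (β : V →ₗ[ZMod p] V →ₗ[ZMod p] W) (π : V →ₗ[ZMod p] W) :
    ∃ (M : Type) (_ : Group M),
      Nonempty (Ext p M V W (β - β.flip) (fun v => π v + p.choose 2 • β v v)) := by
  have hp0 : p ≠ 0 := (Fact.out : p.Prime).ne_zero
  let δ : Multiplicative (ι → ℤ) →* Nil e β := MonoidHom.mk'
    (fun a => ⟨p • a.toAdd, -π (bar e a.toAdd)⟩) (by
      intro a b
      apply Nil.ext'
      · simp
      · simp only [Nil.mul_w, map_nsmul, psmul, toAdd_mul, map_add, map_zero]
        abel)
  have hD : δ.range.Normal := ⟨by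
    rintro _ ⟨a, rfl⟩ z
    refine ⟨a, ?_⟩
    rw [eq_mul_inv_iff_mul_eq]
    apply Nil.ext'
    · simp [add_comm]
    · simp only [δ, MonoidHom.mk'_apply, Nil.mul_w, map_nsmul, psmul, LinearMap.zero_apply,
        map_zero]
      abel⟩
  have hδ : ∀ a, (QuotientGroup.mk (⟨p • a, -π (bar e a)⟩ : Nil e β) : Nil e β ⧸ δ.range) = 1 :=
    fun a => (QuotientGroup.eq_one_iff _).2 ⟨Multiplicative.ofAdd a, rfl⟩
  let ν0 : Nil e β →* Multiplicative V := MonoidHom.mk'
    (fun x => Multiplicative.ofAdd (bar e x.a)) (by intro x y; simp [ofAdd_add])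
  let ν1 : Nil e β ⧸ δ.range →* Multiplicative V := QuotientGroup.lift _ ν0 (by
    rintro _ ⟨a, rfl⟩
    simp only [ν0, δ, MonoidHom.mem_ker, MonoidHom.mk'_apply, map_nsmul, psmul, ofAdd_zero])
  have hν : ∀ x : Nil e β, (ν1 (QuotientGroup.mk x)).toAdd = bar e x.a := fun x => rfl
  refine ⟨Nil e β ⧸ δ.range, inferInstance, ⟨{
    ν := fun x => (ν1 x).toAdd
    ι := fun w => QuotientGroup.mk ⟨0, w⟩
    ν_mul := by intro x y; simp
    ι_add := by
      intro a b
      rw [← QuotientGroup.mk_mul]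
      congr 1
      apply Nil.ext' <;> simp
    ν_surj := by
      intro v
      obtain ⟨a, rfl⟩ := bar_surj e v
      exact ⟨QuotientGroup.mk ⟨a, 0⟩, rfl⟩
    ι_inj := by
      intro a b hab
      obtain ⟨c, hc⟩ := QuotientGroup.eq.1 hab
      have h1 := congrArg Nil.a hc
      have h2 := congrArg Nil.w hc
      simp only [δ, MonoidHom.mk'_apply, Nil.mul_a, Nil.inv_a, neg_zero, add_zero] at h1
      have h3 : c.toAdd = 0 := by
        ext i
        have := congrFun h1 i
        simpa [hp0] using this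
      simp only [δ, MonoidHom.mk'_apply, h3, Nil.mul_w, Nil.inv_w, Nil.inv_a, map_zero,
        neg_zero, add_zero] at h2
      exact neg_add_eq_zero.1 h2.symm
    ker := by
      intro x
      obtain ⟨x, rfl⟩ := QuotientGroup.mk_surjective x
      constructor
      · intro hx
        obtain ⟨b, hb⟩ := bar_eq_zero e x.a hx
        refine ⟨x.w + π (bar e b), ?_⟩
        have : x = ⟨0, x.w + π (bar e b)⟩ * ⟨p • b, -π (bar e b)⟩ := by
          apply Nil.ext' <;> simp [hb]
        conv_rhs => rw [this, QuotientGroup.mk_mul, hδ, mul_one]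
      · rintro ⟨w, hw⟩
        rw [← hw, hν, map_zero]
    central := by
      intro w x
      obtain ⟨x, rfl⟩ := QuotientGroup.mk_surjective x
      rw [← QuotientGroup.mk_mul, ← QuotientGroup.mk_mul]
      congr 1
      apply Nil.ext' <;> simp [add_comm]
    comm := by
      intro x y
      obtain ⟨x, rfl⟩ := QuotientGroup.mk_surjective x
      obtain ⟨y, rfl⟩ := QuotientGroup.mk_surjective y
      rw [← QuotientGroup.mk_mul, ← QuotientGroup.mk_mul, ← QuotientGroup.mk_mul, hν, hν]
      congr 1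
      apply Nil.ext'
      · simp [add_comm]
      · simp; abel
    pow := by
      intro x
      obtain ⟨x, rfl⟩ := QuotientGroup.mk_surjective x
      have : x ^ p = ⟨0, π (bar e x.a) + p.choose 2 • β (bar e x.a) (bar e x.a)⟩ *
          ⟨p • x.a, -π (bar e x.a)⟩ := by
        rw [Nil.pow_eq]
        apply Nil.ext'
        · simp
        · simp only [psmul, Nil.mul_w, map_zero, LinearMap.zero_apply]
          abel
      rw [← QuotientGroup.mk_pow, hν, this, QuotientGroup.mk_mul, hδ, mul_one] }⟩⟩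

/-- A group with coordinates matching the relators is the presented group. -/
theorem iso_of_frame {p : ℕ} [Fact p.Prime] (f g : Polynomial (ZMod p)) {M V : Type} [Group M]
    [AddCommGroup V] [Module (ZMod p) V] {ω : V →ₗ[ZMod p] V →ₗ[ZMod p] ZMod p × ZMod p}
    {q : V → ZMod p × ZMod p} (E : Ext p M V (ZMod p × ZMod p) ω q)
    (e : Basis (Fin f.natDegree ⊕ Fin f.natDegree) (ZMod p) V)
    (hxx : ∀ i j, ω (e (.inl i)) (e (.inl j)) = 0)
    (hyy : ∀ i j, ω (e (.inr i)) (e (.inr j)) = 0)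
    (hxy : ∀ i j : Fin f.natDegree,
      ω (e (.inl i)) (e (.inr j)) = (coef f g (i + j), coef f g (i + j + 1)))
    (hx : ∀ i : Fin f.natDegree, q (e (.inl i)) = (0, coef f g i))
    (hy : ∀ i : Fin f.natDegree, q (e (.inr i)) = (if p = 2 then 0 else -coef f g i, 0)) :
    Nonempty (Grp f g ≃* M) := by
  choose s hs using E.ν_surj
  let φ0 : Gen f.natDegree → M := fun a => match a with
    | .x i => s (e (.inl i))
    | .y i => s (e (.inr i))
    | .z => E.ι (1, 0)
    | .w => E.ι (0, 1)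
  have hcm : ∀ x y : M, cm x y = E.ι (ω (E.ν x) (E.ν y)) := by
    intro x y
    rw [cm, E.comm x y]; group
  have hmap : ∀ {A B : Type} [Group A] [Group B] (ψ : A →* B) (a b : A),
      ψ (cm a b) = cm (ψ a) (ψ b) := by
    intro A B _ _ ψ a b
    simp [cm]
  have hz : ∀ a : ZMod p, E.ι (1, 0) ^ a.val = E.ι (a, 0) := by
    intro a; rw [← E.ι_nsmul]; simp
  have hw : ∀ a : ZMod p, E.ι (0, 1) ^ a.val = E.ι (0, a) := by
    intro a; rw [← E.ι_nsmul]; simp
  have hrel : ∀ r ∈ rels f g, FreeGroup.lift φ0 r = 1 := by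
    rintro r (⟨a, rfl⟩ | ⟨a, rfl⟩ | rfl | rfl | ⟨i, j, rfl⟩ | ⟨i, j, rfl⟩ | ⟨i, j, rfl⟩ |
      ⟨i, rfl⟩ | ⟨i, rfl⟩)
    · simp [hmap, hcm, φ0, E.ν_ι, E.ι_zero]
    · simp [hmap, hcm, φ0, E.ν_ι, E.ι_zero]
    · simp only [map_pow, FreeGroup.lift_apply_of, φ0]
      rw [← E.ι_nsmul, psmul, E.ι_zero]
    · simp only [map_pow, FreeGroup.lift_apply_of, φ0]
      rw [← E.ι_nsmul, psmul, E.ι_zero]
    · simp [hmap, hcm, φ0, hs, hxx, E.ι_zero]
    · simp [hmap, hcm, φ0, hs, hyy, E.ι_zero]
    · simp only [map_mul, map_inv, map_pow, hmap, FreeGroup.lift_apply_of, φ0, hcm, hs, hxy, hz, hw]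
      rw [← E.ι_add, mul_inv_eq_one]
      simp
    · simp only [map_mul, map_inv, map_pow, FreeGroup.lift_apply_of, φ0, hw, E.pow, hs, hx]
      simp
    · simp only [map_mul, map_pow, FreeGroup.lift_apply_of, φ0, E.pow, hs, hy]
      split_ifs
      · simpa [Prod.mk_zero_zero] using E.ι_zero
      · rw [hz, ← E.ι_add]
        simpa [Prod.mk_zero_zero] using E.ι_zero
  let φ : Grp f g →* M := PresentedGroup.toGroup hrel
  have hφ : ∀ a, φ (PresentedGroup.of a) = φ0 a := fun a => PresentedGroup.toGroup.of hrel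
  -- the central subgroup of the presented group
  let z : Grp f g := PresentedGroup.of Gen.z
  let w : Grp f g := PresentedGroup.of Gen.w
  have one : ∀ r ∈ rels f g, PresentedGroup.mk (rels f g) r = 1 := fun r hr =>
    PresentedGroup.one_of_mem hr
  have cm1 : ∀ {A : Type} [Group A] (a b : A), cm a b = 1 → Commute a b := by
    intro A _ a b h
    rw [cm, mul_inv_eq_one, mul_inv_eq_iff_eq_mul] at h
    exact h
  have cen : ∀ t : Grp f g, (∀ a, Commute t (PresentedGroup.of a)) → ∀ x, Commute t x := by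
    intro t ht x
    exact PresentedGroup.generated_by (rels f g) (Subgroup.centralizer {t})
      (fun a => Subgroup.mem_centralizer_singleton_iff.2 (ht a).symm) x t rfl
  have zc : ∀ x, Commute z x := cen z fun a => cm1 _ _ (by
    have := one _ (Or.inl ⟨a, rfl⟩)
    rwa [hmap] at this)
  have wc : ∀ x, Commute w x := cen w fun a => cm1 _ _ (by
    have := one _ (Or.inr (Or.inl ⟨a, rfl⟩))
    rwa [hmap] at this)
  have zp : z ^ p = 1 := by
    have := one _ (Or.inr (Or.inr (Or.inl rfl)))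
    rwa [map_pow] at this
  have wp : w ^ p = 1 := by
    have := one _ (Or.inr (Or.inr (Or.inr (Or.inl rfl))))
    rwa [map_pow] at this
  let Z : Subgroup (Grp f g) := Subgroup.closure {z, w}
  have zZ : z ∈ Z := Subgroup.subset_closure (by simp)
  have wZ : w ∈ Z := Subgroup.subset_closure (by simp)
  have Zc : Z ≤ Subgroup.center _ := by
    rw [Subgroup.closure_le]
    rintro t (rfl | rfl)
    · exact Subgroup.mem_center_iff.2 fun x => (zc x).symm
    · exact Subgroup.mem_center_iff.2 fun x => (wc x).symm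
  have ZN : Z.Normal := ⟨fun t ht x => by
    rwa [Subgroup.mem_center_iff.1 (Zc ht) x, mul_inv_cancel_right]⟩
  have Zform : ∀ t ∈ Z, ∃ a b : ZMod p, t = z ^ a.val * w ^ b.val := by
    intro t ht
    induction ht using Subgroup.closure_induction with
    | mem t ht =>
      rcases ht with rfl | rfl
      · exact ⟨1, 0, by simp [ZMod.val_one]⟩
      · exact ⟨0, 1, by simp [ZMod.val_one]⟩
    | one => exact ⟨0, 0, by simp⟩
    | mul t u _ _ h1 h2 =>
      obtain ⟨a, b, rfl⟩ := h1
      obtain ⟨c, d, rfl⟩ := h2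
      refine ⟨a + c, b + d, ?_⟩
      rw [ZMod.val_add, ZMod.val_add, ← pow_eq_pow_mod _ zp, ← pow_eq_pow_mod _ wp, pow_add,
        pow_add]
      exact ((wc _).pow_left _).mul_mul_mul_comm _ _
    | inv t _ h =>
      obtain ⟨a, b, rfl⟩ := h
      refine ⟨-a, -b, ?_⟩
      rw [inv_eq_iff_mul_eq_one, ((wc _).pow_left _).mul_mul_mul_comm, ← pow_add, ← pow_add,
        pow_eq_pow_mod _ zp, pow_eq_pow_mod _ wp, ← ZMod.val_add, ← ZMod.val_add]
      simp
  have mkone : ∀ t ∈ Z, (QuotientGroup.mk' Z t : Grp f g ⧸ Z) = 1 := fun t ht =>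
    (QuotientGroup.eq_one_iff _).2 ht
  have qgen : ∀ H : Subgroup (Grp f g ⧸ Z),
      (∀ a, QuotientGroup.mk' Z (PresentedGroup.of a) ∈ H) → ∀ x, x ∈ H := by
    intro H hH x
    obtain ⟨x, rfl⟩ := QuotientGroup.mk'_surjective Z x
    exact PresentedGroup.generated_by (rels f g) (H.comap (QuotientGroup.mk' Z)) hH x
  have qc0 : ∀ a b, Commute (QuotientGroup.mk' Z (PresentedGroup.of a))
      (QuotientGroup.mk' Z (PresentedGroup.of b)) := by
    have hxy' : ∀ i j, Commute (QuotientGroup.mk' Z (PresentedGroup.of (Gen.x i)))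
        (QuotientGroup.mk' Z (PresentedGroup.of (Gen.y j))) := by
      intro i j
      apply cm1
      have := one _ (Or.inr (Or.inr (Or.inr (Or.inr (Or.inr (Or.inr (Or.inl ⟨i, j, rfl⟩)))))))
      rw [map_mul, map_inv, mul_inv_eq_one, hmap] at this
      rw [← hmap]
      apply mkone
      change cm (PresentedGroup.mk _ _) (PresentedGroup.mk _ _) ∈ Z
      rw [this, map_mul, map_pow, map_pow]
      exact Z.mul_mem (Z.pow_mem zZ _) (Z.pow_mem wZ _)
    intro a b
    rcases a with i | i | _ | _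
    · rcases b with j | j | _ | _
      · apply Commute.map
        apply cm1
        have := one _ (Or.inr (Or.inr (Or.inr (Or.inr (Or.inl ⟨i, j, rfl⟩)))))
        rwa [hmap] at this
      · exact hxy' i j
      · exact (zc _).symm.map _
      · exact (wc _).symm.map _
    · rcases b with j | j | _ | _
      · exact (hxy' j i).symm
      · apply Commute.map
        apply cm1
        have := one _ (Or.inr (Or.inr (Or.inr (Or.inr (Or.inr (Or.inl ⟨i, j, rfl⟩))))))
        rwa [hmap] at this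
      · exact (zc _).symm.map _
      · exact (wc _).symm.map _
    · exact (zc _).map _
    · exact (wc _).map _
  have qc : ∀ a b : Grp f g ⧸ Z, a * b = b * a := by
    intro a b
    have h1 : ∀ c, Commute a (QuotientGroup.mk' Z (PresentedGroup.of c)) := fun c =>
      (qgen (Subgroup.centralizer {QuotientGroup.mk' Z (PresentedGroup.of c)})
        (fun d => Subgroup.mem_centralizer_singleton_iff.2 (qc0 d c)) a _ rfl).symm
    exact qgen (Subgroup.centralizer {a})
      (fun d => Subgroup.mem_centralizer_singleton_iff.2 (h1 d).symm) b a rfl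
  let : CommGroup (Grp f g ⧸ Z) := { (inferInstance : Group (Grp f g ⧸ Z)) with mul_comm := qc }
  have qp : ∀ a : Grp f g ⧸ Z, a ^ p = 1 := by
    intro a
    refine qgen (powMonoidHom p).ker (fun c => ?_) a
    rw [MonoidHom.mem_ker, powMonoidHom_apply, ← map_pow]
    apply mkone
    rcases c with i | i | _ | _
    · have := one _ (Or.inr (Or.inr (Or.inr (Or.inr (Or.inr (Or.inr (Or.inr
        (Or.inl ⟨i, rfl⟩))))))))
      rw [map_mul, map_inv, mul_inv_eq_one, map_pow, map_pow] at this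
      change (PresentedGroup.mk _ _) ^ p ∈ Z
      rw [this]
      exact Z.pow_mem wZ _
    · have := one _ (Or.inr (Or.inr (Or.inr (Or.inr (Or.inr (Or.inr (Or.inr
        (Or.inr ⟨i, rfl⟩))))))))
      rw [map_mul, mul_eq_one_iff_eq_inv, map_pow, map_pow] at this
      change (PresentedGroup.mk _ _) ^ p ∈ Z
      rw [this]
      exact Z.inv_mem (Z.pow_mem zZ _)
    · exact Z.pow_mem zZ _
    · exact Z.pow_mem wZ _
  obtain ⟨ψ, ψadd, ψe⟩ : ∃ ψ : V → Grp f g ⧸ Z, (∀ a b, ψ (a + b) = ψ a * ψ b) ∧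
      ∀ i, ψ (e i) = QuotientGroup.mk' Z (PresentedGroup.of (Sum.elim Gen.x Gen.y i)) := by
    let : Module (ZMod p) (Additive (Grp f g ⧸ Z)) := AddCommGroup.zmodModule (by
      intro a
      apply Additive.toMul.injective
      rw [toMul_nsmul, qp, toMul_zero])
    let ψ := e.constr (ZMod p) (fun i => Additive.ofMul
      (QuotientGroup.mk' Z (PresentedGroup.of (Sum.elim Gen.x Gen.y i))))
    refine ⟨fun v => (ψ.toAddMonoidHom v).toMul, fun a b => ?_, fun i => ?_⟩
    · beta_reduce
      rw [map_add, toMul_add]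
    · exact congrArg Additive.toMul (e.constr_basis (ZMod p) _ i)
  have ψ0 : ψ 0 = 1 := by
    have := ψadd 0 0
    rw [add_zero] at this
    exact left_eq_mul.mp this
  have hψ : ∀ x, ψ (E.ν (φ x)) = QuotientGroup.mk' Z x := by
    have : MonoidHom.mk' (fun x => ψ (E.ν (φ x))) (by
        intro x y; rw [map_mul, E.ν_mul, ψadd]) = QuotientGroup.mk' Z := by
      apply PresentedGroup.ext
      intro a
      rw [MonoidHom.mk'_apply, hφ]
      rcases a with i | i | _ | _
      · simp only [φ0, hs, ψe, Sum.elim_inl]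
      · simp only [φ0, hs, ψe, Sum.elim_inr]
      · simp only [φ0, E.ν_ι, ψ0]
        exact (mkone _ zZ).symm
      · simp only [φ0, E.ν_ι, ψ0]
        exact (mkone _ wZ).symm
    exact fun x => DFunLike.congr_fun this x
  have hφzw : ∀ a b : ZMod p, φ (z ^ a.val * w ^ b.val) = E.ι (a, b) := by
    intro a b
    rw [map_mul, map_pow, map_pow, hφ, hφ]
    simp only [φ0]
    rw [hz, hw, ← E.ι_add]
    simp
  refine ⟨MulEquiv.ofBijective φ ⟨?_, ?_⟩⟩
  · rw [injective_iff_map_eq_one]
    intro x hx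
    have := hψ x
    rw [hx, E.ν_one, ψ0, eq_comm] at this
    obtain ⟨a, b, rfl⟩ := Zform x ((QuotientGroup.eq_one_iff _).1 this)
    rw [hφzw, ← E.ι_zero] at hx
    have := E.ι_inj hx
    rw [Prod.mk_eq_zero] at this
    simp [this.1, this.2]
  · intro m
    let S : AddSubgroup V :=
      { carrier := {v | ∃ x, E.ν (φ x) = v}
        add_mem' := by
          rintro _ _ ⟨x, rfl⟩ ⟨y, rfl⟩
          exact ⟨x * y, by rw [map_mul, E.ν_mul]⟩
        zero_mem' := ⟨1, by rw [map_one, E.ν_one]⟩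
        neg_mem' := by
          rintro _ ⟨x, rfl⟩
          exact ⟨x⁻¹, by rw [map_inv, E.ν_inv]⟩ }
    have hS : (⊤ : Submodule (ZMod p) V) ≤ AddSubgroup.toZModSubmodule p S := by
      rw [← e.span_eq, Submodule.span_le]
      rintro _ ⟨i | i, rfl⟩
      · exact ⟨PresentedGroup.of (Gen.x i), by rw [hφ]; exact hs _⟩
      · exact ⟨PresentedGroup.of (Gen.y i), by rw [hφ]; exact hs _⟩
    obtain ⟨x, hx⟩ : E.ν m ∈ S := hS Submodule.mem_top
    obtain ⟨⟨a, b⟩, hab⟩ := E.eq_mul_of_ν_eq hx
    exact ⟨x * (z ^ a.val * w ^ b.val), by rw [map_mul, hφzw, hab]⟩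

end Pool.Agent.P.MP_0b48ca_al
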