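import Pool.Agent.P.MP_0b48ca_al.Main

/-! Rigid admissible pairs exist for every prime. -/

namespace Pool.Agent.P.MP_0b48ca_al

open Polynomial Function

lemma exists_cubic (p : ℕ) [Fact p.Prime] : ∃ k : ZMod p, ∀ x : ZMod p, x ^ 3 + x ^ 2 + k ≠ 0 := by
  by_contra h
  push Not at h
  have hs : Surjective (fun x : ZMod p => -(x ^ 3 + x ^ 2)) := by
    intro k
    obtain ⟨x, hx⟩ := h k
    exact ⟨x, by linear_combination -hx⟩
  have := Finite.injective_iff_surjective.2 hs (a₁ := 0) (a₂ := -1) (by ring_nf)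
  simp at this

theorem example_odd {p : ℕ} [Fact p.Prime] (hp : p ≠ 2) :
    ∃ f g : (ZMod p)[X], Admissible f g ∧ Rigid f g ∧ f.natDegree = 3 := by
  obtain ⟨k, hk⟩ := exists_cubic p
  have hk0 : k ≠ 0 := by simpa using hk 0
  have hdeg : (X ^ 3 + X ^ 2 + C k : (ZMod p)[X]).natDegree = 3 := by compute_degree!
  have hm : (X ^ 3 + X ^ 2 + C k : (ZMod p)[X]).Monic := by monicity!
  refine ⟨X ^ 3 + X ^ 2 + C k, X, ⟨hm, by omega, by simpa using hk, ?_, ?_,
    fun h => absurd h hp⟩, ?_, hdeg⟩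
  · rw [degree_eq_natDegree hm.ne_zero, hdeg, degree_X]
    norm_num
  · refine ⟨C k⁻¹, -(C k⁻¹ * (X ^ 2 + X)), ?_⟩
    have : C k⁻¹ * C k = (1 : (ZMod p)[X]) := by rw [← map_mul, inv_mul_cancel₀ hk0, map_one]
    linear_combination this
  · intro a b c d hdet r
    rw [Related, if_neg hp, hdeg] at r
    have e1 : mob a b c d (3 - 1) (X : (ZMod p)[X]) =
        C (a * c) + C (a * d + b * c) * X + C (b * d) * X ^ 2 := by
      simp [mob, coeff_X]
      ring
    have e2 : mob a b c d 3 (X ^ 3 + X ^ 2 + C k : (ZMod p)[X]) =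
        C (k * a ^ 3 + c ^ 2 * a + c ^ 3) +
        C (3 * k * a ^ 2 * b + 2 * c * d * a + c ^ 2 * b + 3 * c ^ 2 * d) * X +
        C (3 * k * a * b ^ 2 + d ^ 2 * a + 2 * c * d * b + 3 * c * d ^ 2) * X ^ 2 +
        C (k * b ^ 3 + d ^ 2 * b + d ^ 3) * X ^ 3 := by
      simp [mob, Finset.sum_range_succ, coeff_X_pow, coeff_C, map_ofNat]
      ring
    rw [e1, e2] at r
    generalize hA : k * a ^ 3 + c ^ 2 * a + c ^ 3 = A at r
    generalize hB : 3 * k * a ^ 2 * b + 2 * c * d * a + c ^ 2 * b + 3 * c ^ 2 * d = B at r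
    generalize hC : 3 * k * a * b ^ 2 + d ^ 2 * a + 2 * c * d * b + 3 * c * d ^ 2 = D at r
    generalize hD : k * b ^ 3 + d ^ 2 * b + d ^ 3 = E at r
    generalize hu : a * c = u at r
    generalize hv : a * d + b * c = v at r
    generalize hw : b * d = w at r
    have r' : C (u * k) + C (v * k - A) * X + C (u + w * k - B) * X ^ 2 + C (u + v - D) * X ^ 3 +
        C (v + w - E) * X ^ 4 + C w * X ^ 5 = 0 := by
      simp only [map_sub, map_add, map_mul]
      linear_combination r
    have c0 := congrArg (coeff · 0) r'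
    have c1 := congrArg (coeff · 1) r'
    have c2 := congrArg (coeff · 2) r'
    have c3 := congrArg (coeff · 3) r'
    have c4 := congrArg (coeff · 4) r'
    have c5 := congrArg (coeff · 5) r'
    simp only [coeff_add, coeff_C_mul, coeff_X_pow, coeff_X, coeff_C, coeff_zero] at c0 c1 c2 c3 c4 c5
    norm_num at c0 c1 c2 c3 c4 c5
    subst hA hB hC hD hu hv hw
    by_cases ha : a = 0
    · exfalso
      subst ha
      have hb : b ≠ 0 := by rintro rfl; simp at hdet
      have hc : c ≠ 0 := by rintro rfl; simp at hdet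
      have hd : d = 0 := by simpa [hb] using c5
      subst hd
      have : c ^ 2 * b = 0 := by linear_combination -c2
      simp [hb, hc] at this
    · have hc : c = 0 := by simpa [ha, hk0] using c0
      subst hc
      have hd : d ≠ 0 := by rintro rfl; simp at hdet
      have hb : b = 0 := by simpa [hd] using c5
      subst hb
      have h1 : d = 1 := by
        apply mul_left_cancel₀ (mul_ne_zero ha hd)
        linear_combination -c3
      subst h1
      exact ⟨by linear_combination c4, rfl, rfl, rfl⟩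

theorem example_two : ∃ f g : (ZMod 2)[X], Admissible f g ∧ Rigid f g ∧ f.natDegree = 5 := by
  have hdeg : (X ^ 5 + X ^ 2 + 1 : (ZMod 2)[X]).natDegree = 5 := by compute_degree!
  have hm : (X ^ 5 + X ^ 2 + 1 : (ZMod 2)[X]).Monic := by monicity!
  refine ⟨X ^ 5 + X ^ 2 + 1, 1, ⟨hm, by omega, ?_, ?_, isCoprime_one_right, fun _ => ⟨?_, rfl⟩⟩,
    ?_, hdeg⟩
  · intro a
    simp only [eval_add, eval_pow, eval_X, eval_one]
    revert a
    decide
  · rw [degree_eq_natDegree hm.ne_zero, hdeg, degree_one]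
    norm_num
  · apply Separable.squarefree
    refine ⟨X ^ 2 + 1, X ^ 3 + X + 1, ?_⟩
    simp only [derivative_add, derivative_X_pow, derivative_one, map_natCast]
    push_cast
    linear_combination (3 * X ^ 7 + 3 * X ^ 5 + 4 * X ^ 4 + 2 * X ^ 2 + X) * two_poly
  · intro a b c d hdet r
    rw [Related, if_pos rfl, hdeg] at r
    have e2 : mob a b c d 5 (X ^ 5 + X ^ 2 + 1 : (ZMod 2)[X]) =
        C (a ^ 5 + c ^ 2 * a ^ 3 + c ^ 5) +
        C (a ^ 4 * b + c ^ 2 * a ^ 2 * b + c ^ 4 * d) * X +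
        C (d ^ 2 * a ^ 3 + c ^ 2 * a * b ^ 2) * X ^ 2 +
        C (c ^ 2 * b ^ 3 + d ^ 2 * a ^ 2 * b) * X ^ 3 +
        C (a * b ^ 4 + d ^ 2 * a * b ^ 2 + c * d ^ 4) * X ^ 4 +
        C (b ^ 5 + d ^ 2 * b ^ 3 + d ^ 5) * X ^ 5 := by
      simp only [map_add, map_mul, map_pow]
      simp [mob, Finset.sum_range_succ, coeff_X_pow, coeff_one]
      ring_nf
      simp only [show (3 : (ZMod 2)[X]) = 1 by linear_combination two_poly,
        show (5 : (ZMod 2)[X]) = 1 by linear_combination 2 * two_poly,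
        show (6 : (ZMod 2)[X]) = 0 by linear_combination 3 * two_poly,
        show (10 : (ZMod 2)[X]) = 0 by linear_combination 5 * two_poly, two_poly]
      ring
    rw [e2] at r
    have c1 := congrArg (coeff · 1) r
    have c2 := congrArg (coeff · 2) r
    have c3 := congrArg (coeff · 3) r
    have c4 := congrArg (coeff · 4) r
    simp only [coeff_add, coeff_C_mul, coeff_X_pow, coeff_X, coeff_C, coeff_one] at c1 c2 c3 c4
    norm_num at c1 c2 c3 c4
    clear r e2
    revert a b c d
    decide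

end Pool.Agent.P.MP_0b48ca_al
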