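import Pool.Agent.P.MP_0b48ca_al.Ext

/-! Class-preserving automorphisms in coordinates. -/

namespace Pool.Agent.P.MP_0b48ca_al

open Function

/-- every `ω v`, `v ≠ 0`, is onto -/
def Camina {K V W : Type} [CommRing K] [AddCommGroup V] [Module K V]
    [AddCommGroup W] [Module K W] (ω : V →ₗ[K] V →ₗ[K] W) : Prop :=
  ∀ v, v ≠ 0 → Surjective (ω v)

/-- the stabiliser of `(ω, q)` is trivial -/
def Stab {K V W : Type} [CommRing K] [AddCommGroup V] [Module K V]
    [AddCommGroup W] [Module K W] (ω : V →ₗ[K] V →ₗ[K] W) (q : V → W) : Prop :=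
  ∀ (γ : V ≃ₗ[K] V) (h : W ≃ₗ[K] W), Compat ω q ω q γ h → (∀ v, γ v = v) ∧ ∀ w, h w = w

lemma Camina.nondeg {K V W : Type} [CommRing K] [AddCommGroup V] [Module K V]
    [AddCommGroup W] [Module K W] [Nontrivial W] {ω : V →ₗ[K] V →ₗ[K] W} (h : Camina ω)
    (v : V) (hv : ω v = 0) : v = 0 := by
  by_contra h0
  obtain ⟨w, hw⟩ := exists_ne (0 : W)
  obtain ⟨u, hu⟩ := h v h0 w
  rw [hv] at hu
  exact hw hu.symm

namespace Ext

variable {p : ℕ} {G V W G' V' W' : Type} [Group G] [AddCommGroup V] [Module (ZMod p) V]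
  [AddCommGroup W] [Module (ZMod p) W] {ω : V →ₗ[ZMod p] V →ₗ[ZMod p] W} {q : V → W}
  [Group G'] [AddCommGroup V'] [Module (ZMod p) V']
  [AddCommGroup W'] [Module (ZMod p) W'] {ω' : V' →ₗ[ZMod p] V' →ₗ[ZMod p] W'} {q' : V' → W'}

variable (E : Ext p G V W ω q) (E' : Ext p G' V' W' ω' q')

lemma central_iff (hω : ∀ v, ω v = 0 → v = 0) (x : G) :
    (∀ y, x * y = y * x) ↔ E.ν x = 0 := by
  constructor
  · intro hx
    apply hω
    ext v
    obtain ⟨y, rfl⟩ := E.ν_surj v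
    have := E.comm x y
    rw [hx y, right_eq_mul, ← E.ι_zero] at this
    exact E.ι_inj this
  · intro hx y
    obtain ⟨w, rfl⟩ := (E.ker _).1 hx
    exact E.central _ _

theorem descend (hω : ∀ v, ω v = 0 → v = 0) (hω' : ∀ v, ω' v = 0 → v = 0) (α : G ≃* G') :
    ∃ (γ : V ≃ₗ[ZMod p] V') (h : W ≃ₗ[ZMod p] W'), Compat ω q ω' q' γ h ∧
      (∀ x, E'.ν (α x) = γ (E.ν x)) ∧ ∀ w, α (E.ι w) = E'.ι (h w) := by
  have key : ∀ x, E'.ν (α x) = 0 ↔ E.ν x = 0 := by
    intro x
    rw [← E.central_iff hω, ← E'.central_iff hω']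
    constructor
    · intro hx y
      apply α.injective
      rw [map_mul, map_mul, hx]
    · intro hx y
      obtain ⟨y, rfl⟩ := α.surjective y
      rw [← map_mul, ← map_mul, hx]
  choose s hs using E.ν_surj
  have hγ : ∀ x, E'.ν (α (s (E.ν x))) = E'.ν (α x) := by
    intro x
    obtain ⟨w, hw⟩ := E.eq_mul_of_ν_eq (hs (E.ν x))
    conv_rhs => rw [hw, map_mul, E'.ν_mul, (key _).2 (E.ν_ι w), add_zero]
  let γ0 : V →+ V' := AddMonoidHom.mk' (fun v => E'.ν (α (s v))) (by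
    intro a b
    conv_lhs => rw [← hs a, ← hs b, ← E.ν_mul, hγ, map_mul, E'.ν_mul])
  have hγ0 : Bijective (γ0.toZModLinearMap p) := by
    constructor
    · rw [injective_iff_map_eq_zero]
      intro v hv
      rw [← hs v]
      exact (key _).1 hv
    · intro v'
      obtain ⟨y, rfl⟩ := E'.ν_surj v'
      obtain ⟨x, rfl⟩ := α.surjective y
      exact ⟨E.ν x, hγ x⟩
  choose t ht using fun w => (E'.ker _).1 ((key _).2 (E.ν_ι w))
  let h0 : W →+ W' := AddMonoidHom.mk' t (by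
    intro a b
    apply E'.ι_inj
    rw [E'.ι_add, ht, ht, ht, E.ι_add, map_mul])
  have hh0 : Bijective (h0.toZModLinearMap p) := by
    constructor
    · intro a b hab
      have hab : t a = t b := hab
      apply E.ι_inj
      apply α.injective
      rw [← ht, ← ht, hab]
    · intro w'
      obtain ⟨x, hx⟩ := α.surjective (E'.ι w')
      obtain ⟨w, rfl⟩ := (E.ker x).1 ((key x).1 (by rw [hx, E'.ν_ι]))
      refine ⟨w, E'.ι_inj ?_⟩
      change E'.ι (t w) = _
      rw [ht, hx]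
  refine ⟨LinearEquiv.ofBijective _ hγ0, LinearEquiv.ofBijective _ hh0, ⟨?_, ?_⟩,
    fun x => (hγ x).symm, fun w => (ht w).symm⟩
  · intro u v
    apply E'.ι_inj
    change E'.ι (ω' (E'.ν (α (s u))) (E'.ν (α (s v)))) = E'.ι (t (ω u v))
    have h1 := E'.comm (α (s u)) (α (s v))
    have h2 := congrArg α (E.comm (s u) (s v))
    rw [map_mul, map_mul, map_mul, hs, hs, h1] at h2
    rw [ht]
    exact mul_right_cancel h2
  · intro v
    apply E'.ι_inj
    change E'.ι (q' (E'.ν (α (s v)))) = E'.ι (t (q v))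
    rw [ht, ← E'.pow, ← map_pow, E.pow, hs]

include E in
theorem camina_of_allCP [Fact p.Prime] (hG : AllClassPreserving G) : Camina ω := by
  intro v hv w
  obtain ⟨ℓ, hℓ⟩ : ∃ ℓ : V →ₗ[ZMod p] W, ℓ v = -w := by
    obtain ⟨f, hf⟩ := Module.Projective.exists_dual_eq_one (ZMod p) hv
    exact ⟨f.smulRight (-w), by simp [hf]⟩
  let α : MulAut G :=
    { toFun := fun x => x * E.ι (ℓ (E.ν x))
      invFun := fun x => x * E.ι (-ℓ (E.ν x))
      left_inv := by
        intro x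
        simp only [E.ν_mul, E.ν_ι, add_zero]
        rw [mul_assoc, ← E.ι_add, add_neg_cancel, E.ι_zero, mul_one]
      right_inv := by
        intro x
        simp only [E.ν_mul, E.ν_ι, add_zero]
        rw [mul_assoc, ← E.ι_add, neg_add_cancel, E.ι_zero, mul_one]
      map_mul' := by
        intro x y
        rw [E.ν_mul, map_add, E.ι_add]
        simp only [mul_assoc]
        rw [← mul_assoc (E.ι _) y, E.central _ y, mul_assoc] }
  obtain ⟨x, rfl⟩ := E.ν_surj v
  obtain ⟨c, hc⟩ := isConj_iff.1 (hG α x)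
  have hc : c * x * c⁻¹ = x * E.ι (ℓ (E.ν x)) := hc
  refine ⟨E.ν c, E.ι_inj ?_⟩
  have h1 := E.comm x c
  have h2 : c * x = x * c * (E.ι w)⁻¹ := by
    rw [← E.ι_neg, ← hℓ, mul_assoc, ← E.central, ← mul_assoc, ← hc, inv_mul_cancel_right]
  rw [h2, E.central, mul_assoc, left_eq_mul, inv_mul_eq_one] at h1
  exact h1.symm

include E in
theorem stab_of_allCP [Fact p.Prime] (hG : AllClassPreserving G) : Stab ω q := by
  intro γ h hc
  obtain ⟨α, h1, h2⟩ := E.lift E γ h hc
  constructor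
  · intro v
    obtain ⟨x, rfl⟩ := E.ν_surj v
    obtain ⟨c, hc⟩ := isConj_iff.1 (hG α x)
    rw [← h1, ← hc, E.ν_mul, E.ν_mul, E.ν_inv]
    abel
  · intro w
    obtain ⟨c, hc⟩ := isConj_iff.1 (hG α (E.ι w))
    apply E.ι_inj
    rw [← h2, ← hc, ← E.central, mul_inv_cancel_right]

include E in
theorem allCP_of [Nontrivial W] (h1 : Camina ω) (h2 : Stab ω q) : AllClassPreserving G := by
  intro α x
  obtain ⟨γ, h, hc, h3, h4⟩ := E.descend E h1.nondeg h1.nondeg α
  obtain ⟨h5, h6⟩ := h2 γ h hc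
  by_cases hx : E.ν x = 0
  · obtain ⟨w, rfl⟩ := (E.ker _).1 hx
    rw [h4, h6]
  · obtain ⟨w, hw⟩ := E.eq_mul_of_ν_eq (x := x) (y := α x) (by rw [h3, h5])
    obtain ⟨u, hu⟩ := h1 _ hx (-w)
    obtain ⟨c, rfl⟩ := E.ν_surj u
    rw [isConj_iff]
    refine ⟨c, ?_⟩
    have := E.comm x c
    rw [hu, E.ι_neg, eq_inv_mul_iff_mul_eq] at this
    rw [hw, ← this, ← mul_assoc, mul_inv_cancel_right, E.central]

/-- transport along a group isomorphism -/
def transport (e : G' ≃* G) : Ext p G' V W ω q where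
  ν := fun x => E.ν (e x)
  ι := fun w => e.symm (E.ι w)
  ν_mul := by intro x y; rw [map_mul, E.ν_mul]
  ι_add := by intro a b; rw [E.ι_add, map_mul]
  ν_surj := E.ν_surj.comp e.surjective
  ι_inj := e.symm.injective.comp E.ι_inj
  ker := by
    intro x
    rw [E.ker]
    simp only [MulEquiv.symm_apply_eq]
  central := by
    intro w x
    apply e.injective
    simp only [map_mul, MulEquiv.apply_symm_apply, E.central]
  comm := by
    intro x y
    apply e.injective
    simp only [map_mul, MulEquiv.apply_symm_apply]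
    exact E.comm _ _
  pow := by
    intro x
    apply e.injective
    simp only [map_pow, MulEquiv.apply_symm_apply]
    exact E.pow _

include E in
lemma card_eq : Nat.card G = Nat.card V * Nat.card W := by
  choose s hs using E.ν_surj
  rw [← Nat.card_prod]
  refine (Nat.card_eq_of_bijective (fun z : V × W => s z.1 * E.ι z.2) ⟨?_, ?_⟩).symm
  · rintro ⟨v, w⟩ ⟨v', w'⟩ h
    have h : s v * E.ι w = s v' * E.ι w' := h
    have h1 := congrArg E.ν h
    rw [E.ν_mul, E.ν_mul, E.ν_ι, E.ν_ι, hs, hs, add_zero, add_zero] at h1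
    subst h1
    rw [E.ι_inj (mul_left_cancel h)]
  · intro x
    obtain ⟨w, hw⟩ := E.eq_mul_of_ν_eq (hs (E.ν x))
    exact ⟨(E.ν x, w), hw.symm⟩

lemma commutator_eq (hs : ∀ w, ∃ u v, ω u v = w) : commutator G = E.ιh.range := by
  apply le_antisymm
  · rw [commutator_def, Subgroup.commutator_le]
    intro x _ y _
    refine ⟨Multiplicative.ofAdd (ω (E.ν x) (E.ν y)), ?_⟩
    change E.ι (ω (E.ν x) (E.ν y)) = x * y * x⁻¹ * y⁻¹
    rw [E.comm x y]
    group
  · rintro _ ⟨w, rfl⟩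
    obtain ⟨u, v, h⟩ := hs w.toAdd
    obtain ⟨x, rfl⟩ := E.ν_surj u
    obtain ⟨y, rfl⟩ := E.ν_surj v
    have : E.ιh w = x * y * x⁻¹ * y⁻¹ := by
      change E.ι w.toAdd = _
      rw [E.comm x y, h]
      group
    rw [this]
    exact Subgroup.commutator_mem_commutator (Subgroup.mem_top x) (Subgroup.mem_top y)

end Ext

theorem Ext.rankTwo {p : ℕ} [Fact p.Prime] {G V : Type} [Group G] [AddCommGroup V]
    [Module (ZMod p) V] [Finite V] {ω : V →ₗ[ZMod p] V →ₗ[ZMod p] ZMod p × ZMod p}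
    {q : V → ZMod p × ZMod p} (E : Ext p G V (ZMod p × ZMod p) ω q)
    (hs : ∀ w, ∃ u v, ω u v = w) : RankTwo p G := by
  refine ⟨?_, ?_, ?_, ?_⟩
  · apply Nat.finite_of_card_ne_zero
    rw [E.card_eq]
    exact mul_ne_zero Nat.card_pos.ne' Nat.card_pos.ne'
  · intro x
    refine ⟨2, ?_⟩
    rw [pow_two, pow_mul, E.pow x, ← E.ι_nsmul, ← E.ι_zero]
    congr 1
    rw [← Nat.cast_smul_eq_nsmul (ZMod p), ZMod.natCast_self, zero_smul]
  · rw [E.commutator_eq hs]
    rintro _ ⟨w, rfl⟩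
    rw [Subgroup.mem_center_iff]
    intro y
    exact (E.central _ _).symm
  · rw [E.commutator_eq hs]
    exact ⟨(MonoidHom.ofInjective (f := E.ιh) (fun a b h => E.ι_inj h)).symm⟩

end Pool.Agent.P.MP_0b48ca_al
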