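import Pool.Agent.P.MP_0b48ca_al.Even2
import Pool.Agent.P.MP_0b48ca_al.Abstract

/-! Assembly of the classification. -/

namespace Pool.Agent.P.MP_0b48ca_al

open Polynomial Function

variable {p : ℕ} [hp : Fact p.Prime]

lemma Admissible.adm {f g : (ZMod p)[X]} (h : Admissible f g) : Adm f g :=
  ⟨h.1, h.2.1, h.2.2.1, h.2.2.2.1, h.2.2.2.2.1⟩

/-- commutator form of the group attached to `(f, g)` -/
noncomputable def ωA {f : (ZMod p)[X]} (hf : f.Monic) (g : (ZMod p)[X]) :=
  ωm (AdjoinRoot.root f) (cg hf g)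

/-- power map of the group attached to `(f, g)` -/
noncomputable def qA {f : (ZMod p)[X]} (hf : f.Monic) (g : (ZMod p)[X])
    (v : AdjoinRoot f × AdjoinRoot f) : ZMod p × ZMod p :=
  πm (cg hf g) (if p = 2 then 0 else 1) v + p.choose 2 • βm (AdjoinRoot.root f) (cg hf g) v v

lemma choose_smul (h2 : p ≠ 2) {W : Type} [AddCommGroup W] [Module (ZMod p) W] (w : W) :
    p.choose 2 • w = 0 := by
  obtain ⟨k, hk⟩ := hp.out.dvd_choose_self two_ne_zero
    (lt_of_le_of_ne hp.out.two_le (Ne.symm h2))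
  rw [hk, mul_nsmul', psmul]

lemma qA_odd (h2 : p ≠ 2) {f : (ZMod p)[X]} (hf : f.Monic) (g : (ZMod p)[X]) :
    qA hf g = πm (cg hf g) 1 := by
  ext1 v
  rw [qA, if_neg h2, choose_smul h2, add_zero]

lemma qA_even {f : (ZMod 2)[X]} (hf : f.Monic) (g : (ZMod 2)[X]) :
    qA hf g = qm (AdjoinRoot.root f) (cg hf g) := by
  ext1 v
  simp [qA, qm]

theorem ext_grp {f : (ZMod p)[X]} (hf : f.Monic) (g : (ZMod p)[X]) :
    Nonempty (Ext p (Grp f g) (AdjoinRoot f × AdjoinRoot f) (ZMod p × ZMod p) (ωA hf g)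
      (qA hf g)) := by
  let b : Module.Basis (Fin f.natDegree) (ZMod p) (AdjoinRoot f) :=
    (AdjoinRoot.powerBasis' hf).basis
  have hb : ∀ i, b i = AdjoinRoot.root f ^ (i : ℕ) := fun i =>
    (AdjoinRoot.powerBasis' hf).basis_eq_pow i
  obtain ⟨M, _, ⟨E⟩⟩ := exists_model (b.prod b) (βm (AdjoinRoot.root f) (cg hf g))
    (πm (cg hf g) (if p = 2 then 0 else 1))
  have E' : Ext p M _ _ (ωA hf g) (qA hf g) := E
  obtain ⟨e⟩ := iso_of_frame f g E' (b.prod b)
    (by intro i j; simp [ωA, ωm_apply, Prod.mk_zero_zero])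
    (by intro i j; simp [ωA, ωm_apply, Prod.mk_zero_zero])
    (by
      intro i j
      simp only [ωA, ωm_apply, Module.Basis.prod_apply, Sum.elim_inl, Sum.elim_inr, comp_apply,
        LinearMap.coe_inl, LinearMap.coe_inr, hb, mul_zero, sub_zero]
      rw [← pow_add, ← pow_succ', cg_pow, cg_pow])
    (by intro i; simp [qA, πm_apply, βm_apply, hb, cg_pow])
    (by
      intro i
      simp only [qA, πm_apply, βm_apply, Module.Basis.prod_apply, Sum.elim_inr, comp_apply,
        LinearMap.coe_inr, hb, cg_pow, zero_mul, mul_zero, map_zero, Prod.mk_zero_zero,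
        smul_zero, add_zero]
      split_ifs <;> simp)
  exact ⟨E'.transport e⟩

lemma camina_A {f g : (ZMod p)[X]} (h : Admissible f g) : Camina (ωA h.1 g) :=
  camina_model (cg_nondeg h.1 h.adm.cop) (isUnit_root_sub h.adm.noroot)

theorem normal_form {V : Type} [AddCommGroup V] [Module (ZMod p) V]
    [FiniteDimensional (ZMod p) V] [Nontrivial V]
    {ω : V →ₗ[ZMod p] V →ₗ[ZMod p] ZMod p × ZMod p} (h1 : ∀ v, ω v v = 0) (h2 : Camina ω)
    {q : V → ZMod p × ZMod p} (hq : ∀ u v, q (u + v) = q u + q v + p.choose 2 • ω v u)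
    (hS : ∀ γ : V ≃ₗ[ZMod p] V, Compat ω q ω q γ id → ∀ v, γ v = v) :
    ∃ (f g : (ZMod p)[X]) (h : Admissible f g) (Ψ : (AdjoinRoot f × AdjoinRoot f) ≃ₗ[ZMod p] V),
      Compat (ωA h.1 g) (qA h.1 g) ω q Ψ id := by
  by_cases hp2 : p = 2
  · subst hp2
    obtain ⟨f, h, hs, Ψ, hΨ⟩ := even_normal_form h1 h2 (by simpa using hq) hS
    refine ⟨f, 1, ⟨h.monic, h.pos, h.noroot, h.lt, h.cop, fun _ => ⟨hs, rfl⟩⟩, Ψ, ?_⟩
    rw [qA_even]
    exact hΨ
  · let π : V →+ ZMod p × ZMod p := AddMonoidHom.mk' q (by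
      intro u v; rw [hq, choose_smul hp2, add_zero])
    obtain ⟨f, g, h, Ψ, hΨ⟩ := odd_normal_form h1 h2 (π.toZModLinearMap p) hS
    refine ⟨f, g, ⟨h.monic, h.pos, h.noroot, h.lt, h.cop, fun h => absurd h hp2⟩, Ψ, ?_⟩
    rw [qA_odd hp2]
    exact hΨ

theorem stab_A {f g : (ZMod p)[X]} (h : Admissible f g)
    (γ : (AdjoinRoot f × AdjoinRoot f) ≃ₗ[ZMod p] (AdjoinRoot f × AdjoinRoot f))
    (hc : Compat (ωA h.1 g) (qA h.1 g) (ωA h.1 g) (qA h.1 g) γ (hmat 1 0 0 1))
    (v : AdjoinRoot f × AdjoinRoot f) : γ v = v := by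
  by_cases hp2 : p = 2
  · subst hp2
    obtain ⟨hs, rfl⟩ := h.2.2.2.2.2 rfl
    rw [qA_even] at hc
    exact even_stab h.adm hs γ hc v
  · rw [qA_odd hp2] at hc
    exact odd_stab h.adm γ hc v

theorem related_of_compat {f g f' g' : (ZMod p)[X]} (h : Admissible f g) (h' : Admissible f' g')
    {a b c d : ZMod p} (hdet : a * d - b * c ≠ 0)
    (γ : (AdjoinRoot f × AdjoinRoot f) ≃ₗ[ZMod p] (AdjoinRoot f' × AdjoinRoot f'))
    (hc : Compat (ωA h.1 g) (qA h.1 g) (ωA h'.1 g') (qA h'.1 g') γ (hmat a b c d)) :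
    Related a b c d f g f' g' := by
  by_cases hp2 : p = 2
  · subst hp2
    rw [Related, if_pos rfl]
    exact even_related h.adm h'.adm hdet γ hc.1
  · rw [qA_odd hp2, qA_odd hp2] at hc
    rw [Related, if_neg hp2]
    exact odd_related h.adm h'.adm hdet γ hc

lemma natDegree_mob {K : Type} [Field K] {f g : K[X]} (h : Adm f g) {a b c d : K}
    (hdet : a * d - b * c ≠ 0) : (mob a b c d f.natDegree f).natDegree = f.natDegree := by
  apply natDegree_eq_of_le_of_coeff_ne_zero (mob_natDegree_le _ _ _ _ _ _)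
  have h1 : ∀ u v : K, (C u + C v * X).natDegree ≤ 1 := by
    intro u v
    compute_degree
  have h2 : (mob a b c d f.natDegree f).coeff f.natDegree =
      ∑ i ∈ Finset.range (f.natDegree + 1), f.coeff i * d ^ i * b ^ (f.natDegree - i) := by
    rw [mob, finsetSum_coeff]
    refine Finset.sum_congr rfl fun i hi => ?_
    obtain ⟨j, hj⟩ := Nat.exists_eq_add_of_le (Nat.lt_succ_iff.1 (Finset.mem_range.1 hi))
    rw [hj, Nat.add_sub_cancel_left, mul_assoc, coeff_C_mul, mul_assoc]
    congr 1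
    have e1 := coeff_pow_of_natDegree_le (m := i) (h1 c d)
    have e2 := coeff_pow_of_natDegree_le (m := j) (h1 a b)
    rw [mul_one] at e1 e2
    rw [coeff_mul_add_eq_of_natDegree_le ((natDegree_pow_le_of_le i (h1 c d)).trans (by omega))
      ((natDegree_pow_le_of_le j (h1 a b)).trans (by omega)), e1, e2]
    simp
  rw [h2]
  by_cases hb : b = 0
  · have hd : d ≠ 0 := by rintro rfl; simp [hb] at hdet
    rw [Finset.sum_eq_single f.natDegree]
    · simp [h.monic.coeff_natDegree, hd]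
    · intro i hi hne
      have := Finset.mem_range.1 hi
      rw [hb, zero_pow (by omega), mul_zero]
    · simp
  · have h3 := h.noroot (d / b)
    rw [eval_eq_sum_range] at h3
    intro h0
    apply h3
    apply mul_right_cancel₀ (pow_ne_zero f.natDegree hb)
    rw [zero_mul, ← h0, Finset.sum_mul]
    refine Finset.sum_congr rfl fun i hi => ?_
    obtain ⟨j, hj⟩ := Nat.exists_eq_add_of_le (Nat.lt_succ_iff.1 (Finset.mem_range.1 hi))
    rw [hj, Nat.add_sub_cancel_left, pow_add, div_pow]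
    field_simp

lemma Adm.natDegree_le {K : Type} [Field K] {f g : K[X]} (h : Adm f g) :
    g.natDegree ≤ f.natDegree - 1 := by
  rcases eq_or_ne g 0 with rfl | hg
  · simp
  · have := natDegree_lt_natDegree hg h.lt
    omega

theorem related_unique {f g f' g' f'' g'' : (ZMod p)[X]} (h : Admissible f g)
    (h' : Admissible f' g') (h'' : Admissible f'' g'') {a b c d : ZMod p}
    (hdet : a * d - b * c ≠ 0) (r' : Related a b c d f g f' g')
    (r'' : Related a b c d f g f'' g'') : f' = f'' ∧ g' = g'' := by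
  by_cases hp2 : p = 2
  · rw [Related, if_pos hp2] at r' r''
    refine ⟨?_, by rw [(h'.2.2.2.2.2 hp2).2, (h''.2.2.2.2.2 hp2).2]⟩
    have e1 := natDegree_mob h'.adm hdet
    have e2 := natDegree_mob h''.adm hdet
    rw [r'] at e1
    rw [r''] at e2
    rw [← sub_eq_zero]
    apply mob_eq_zero hdet (n := f.natDegree)
    · exact (natDegree_sub_le _ _).trans (by omega)
    · rw [mob_sub, sub_eq_zero]
      rw [← e1] at r'
      rw [← e2] at r''
      rw [r', r'']
  · rw [Related, if_neg hp2] at r' r''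
    have n1 := h'.adm.natDegree_le
    have n2 := h''.adm.natDegree_le
    have n3 := h'.adm.pos
    have n4 := h''.adm.pos
    have e1 : g' * f'' = g'' * f' := by
      rw [← sub_eq_zero]
      apply mob_eq_zero hdet (n := f'.natDegree - 1 + f''.natDegree)
      · exact (natDegree_sub_le _ _).trans (max_le (natDegree_mul_le.trans (by omega))
          (natDegree_mul_le.trans (by omega)))
      · rw [mob_sub, mob_mul _ _ _ _ n1 le_rfl,
          show f'.natDegree - 1 + f''.natDegree = f''.natDegree - 1 + f'.natDegree by omega,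
          mob_mul _ _ _ _ n2 le_rfl]
        apply mul_left_cancel₀ h.1.ne_zero
        linear_combination mob a b c d f''.natDegree f'' * r' - mob a b c d f'.natDegree f' * r''
    have d1 : f' ∣ f'' := h'.adm.cop.dvd_of_dvd_mul_left ⟨g'', by rw [e1, mul_comm]⟩
    have d2 : f'' ∣ f' := h''.adm.cop.dvd_of_dvd_mul_left ⟨g', by rw [← e1, mul_comm]⟩
    have e2 : f' = f'' := eq_of_monic_of_dvd_of_natDegree_le h''.1 h'.1 d2
      (natDegree_le_of_dvd d1 h''.1.ne_zero)
    subst e2
    exact ⟨rfl, mul_right_cancel₀ h'.1.ne_zero e1⟩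

theorem compat_of_related {f g f' g' : (ZMod p)[X]} (h : Admissible f g) (h' : Admissible f' g')
    {a b c d : ZMod p} (hdet : a * d - b * c ≠ 0) (r : Related a b c d f g f' g') :
    ∃ γ : (AdjoinRoot f × AdjoinRoot f) ≃ₗ[ZMod p] (AdjoinRoot f' × AdjoinRoot f'),
      Compat (ωA h.1 g) (qA h.1 g) (ωA h'.1 g') (qA h'.1 g') γ (hmat a b c d) := by
  obtain ⟨e, he⟩ := exists_equiv_hmat hdet
  obtain ⟨E⟩ := ext_grp h.1 g
  have := (AdjoinRoot.powerBasis' h.1).finite
  have := nontrivial_adjoin h.adm.pos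
  obtain ⟨f'', g'', h'', Ψ, hΨ⟩ := normal_form (ω := (ωA h.1 g).compr₂ e.toLinearMap)
    (q := fun v => e (qA h.1 g v))
    (fun v => by simp [E.alt])
    (fun v hv => e.surjective.comp (camina_A h v hv))
    (fun u v => by rw [E.q_add, map_add, map_add, map_nsmul]; rfl)
    (fun γ hγ => stab_A h γ ⟨fun u v => by
      rw [hmat_one]; exact e.injective (hγ.1 u v), fun v => by
      rw [hmat_one]; exact e.injective (hγ.2 v)⟩)
  have hc : Compat (ωA h.1 g) (qA h.1 g) (ωA h''.1 g'') (qA h''.1 g'') Ψ.symm (hmat a b c d) := by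
    constructor
    · intro u v
      have := hΨ.1 (Ψ.symm u) (Ψ.symm v)
      rw [LinearEquiv.apply_symm_apply, LinearEquiv.apply_symm_apply] at this
      rw [← he]
      exact this.symm
    · intro v
      have := hΨ.2 (Ψ.symm v)
      rw [LinearEquiv.apply_symm_apply] at this
      rw [← he]
      exact this.symm
  obtain ⟨rfl, rfl⟩ := related_unique h h' h'' hdet r (related_of_compat h h'' hdet _ hc)
  exact ⟨Ψ.symm, hc⟩

theorem part_one {f g : (ZMod p)[X]} (h : Admissible f g) :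
    RankTwo p (Grp f g) ∧ Nat.card (Grp f g) = p ^ (2 * f.natDegree + 2) := by
  obtain ⟨E⟩ := ext_grp h.1 g
  have := (AdjoinRoot.powerBasis' h.1).finite
  have := nontrivial_adjoin h.adm.pos
  have : Finite (AdjoinRoot f) := Module.finite_of_finite (ZMod p)
  constructor
  · apply E.rankTwo
    intro w
    obtain ⟨u, hu⟩ := exists_ne (0 : AdjoinRoot f × AdjoinRoot f)
    obtain ⟨v, hv⟩ := camina_A h u hu w
    exact ⟨u, v, hv⟩
  · rw [E.card_eq, Nat.card_prod, Nat.card_prod, Nat.card_zmod,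
      Module.natCard_eq_pow_finrank (K := ZMod p), (AdjoinRoot.powerBasis' h.1).finrank,
      Nat.card_zmod]
    change p ^ f.natDegree * p ^ f.natDegree * (p * p) = _
    ring

theorem part_two {G : Type} [Group G] (hG : RankTwo p G) :
    AllClassPreserving G ↔
      ∃ f g : (ZMod p)[X], Admissible f g ∧ Rigid f g ∧ Nonempty (G ≃* Grp f g) := by
  constructor
  · intro hA
    obtain ⟨V, _, _, _, _, ω, q, ⟨E⟩⟩ := exists_ext hG hA
    obtain ⟨f, g, h, Ψ, hΨ⟩ := normal_form E.alt (E.camina_of_allCP hA) E.q_add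
      (fun γ hγ => (E.stab_of_allCP hA γ (LinearEquiv.refl _ _) hγ).1)
    obtain ⟨E'⟩ := ext_grp h.1 g
    obtain ⟨α, -, -⟩ := E'.lift E Ψ (LinearEquiv.refl _ _) hΨ
    refine ⟨f, g, h, fun a b c d hdet r => ?_, ⟨α.symm⟩⟩
    obtain ⟨γ, hγ⟩ := compat_of_related h h hdet r
    obtain ⟨e, he⟩ := exists_equiv_hmat hdet
    have := ((E'.transport α.symm).stab_of_allCP hA γ e (by
      rw [show (e : _ → _) = hmat a b c d from funext he]; exact hγ)).2
    have h1 := this (1, 0)
    have h2 := this (0, 1)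
    rw [he, hmat] at h1 h2
    simp only [mul_one, mul_zero, add_zero, zero_add, Prod.mk.injEq] at h1 h2
    exact ⟨h1.1, h2.1, h1.2, h2.2⟩
  · rintro ⟨f, g, h, hr, ⟨α⟩⟩
    obtain ⟨E⟩ := ext_grp h.1 g
    refine (E.transport α).allCP_of (camina_A h) fun γ e hc => ?_
    obtain ⟨a, b, c, d, hdet, he⟩ := exists_hmat e
    rw [show (e : _ → _) = hmat a b c d from funext he] at hc
    obtain ⟨rfl, rfl, rfl, rfl⟩ := hr a b c d hdet (related_of_compat h h hdet γ hc)
    exact ⟨stab_A h γ hc, fun w => by rw [he, hmat_one]⟩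

theorem part_three {f g f' g' : (ZMod p)[X]} (h : Admissible f g) (h' : Admissible f' g') :
    Nonempty (Grp f g ≃* Grp f' g') ↔
      ∃ a b c d : ZMod p, a * d - b * c ≠ 0 ∧ Related a b c d f g f' g' := by
  obtain ⟨E⟩ := ext_grp h.1 g
  obtain ⟨E'⟩ := ext_grp h'.1 g'
  constructor
  · rintro ⟨α⟩
    obtain ⟨γ, e, hc, -, -⟩ := E.descend E' (camina_A h).nondeg (camina_A h').nondeg α
    obtain ⟨a, b, c, d, hdet, he⟩ := exists_hmat e
    rw [show (e : _ → _) = hmat a b c d from funext he] at hc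
    exact ⟨a, b, c, d, hdet, related_of_compat h h' hdet γ hc⟩
  · rintro ⟨a, b, c, d, hdet, r⟩
    obtain ⟨γ, hγ⟩ := compat_of_related h h' hdet r
    obtain ⟨e, he⟩ := exists_equiv_hmat hdet
    obtain ⟨α, -, -⟩ := E.lift E' γ e (by
      rw [show (e : _ → _) = hmat a b c d from funext he]; exact hγ)
    exact ⟨α⟩

end Pool.Agent.P.MP_0b48ca_al
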