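import Pool.Agent.P.MP_0b48ca_al.Pencil

/-! The linear algebra for a linear power map (odd primes). -/

namespace Pool.Agent.P.MP_0b48ca_al

open Polynomial Function

variable {K : Type} [Field K]

/-- the part of admissibility common to all primes -/
structure Adm (f g : K[X]) : Prop where
  monic : f.Monic
  pos : 0 < f.natDegree
  noroot : ∀ a, f.eval a ≠ 0
  lt : g.degree < f.degree
  cop : IsCoprime f g

/-- the matrix action on `K × K` -/
def hmat (a b c d : K) (w : K × K) : K × K := (a * w.1 + b * w.2, c * w.1 + d * w.2)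

lemma hmat_one (w : K × K) : hmat 1 0 0 1 w = w := by simp [hmat]

lemma exists_hmat (h : (K × K) ≃ₗ[K] (K × K)) :
    ∃ a b c d : K, a * d - b * c ≠ 0 ∧ ∀ w, h w = hmat a b c d w := by
  have key : ∀ w : K × K, h w = hmat (h (1, 0)).1 (h (0, 1)).1 (h (1, 0)).2 (h (0, 1)).2 w := by
    intro w
    have : w = w.1 • ((1, 0) : K × K) + w.2 • ((0, 1) : K × K) := by simp
    conv_lhs => rw [this, map_add, map_smul, map_smul]
    apply Prod.ext <;> simp [hmat, mul_comm]
  refine ⟨_, _, _, _, fun h0 => ?_, key⟩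
  obtain ⟨w, hw⟩ := h.surjective (1, 0)
  obtain ⟨w', hw'⟩ := h.surjective (0, 1)
  rw [key, hmat, Prod.mk.injEq] at hw hw'
  have : (1 : K) = 0 := by
    linear_combination (w.1 * w'.2 - w.2 * w'.1) * h0 - ((h (1, 0)).2 * w'.1 + (h (0, 1)).2 * w'.2)
      * hw.1 + ((h (1, 0)).1 * w'.1 + (h (0, 1)).1 * w'.2) * hw.2 - hw'.2
  exact one_ne_zero this

lemma exists_equiv_hmat {a b c d : K} (h : a * d - b * c ≠ 0) :
    ∃ e : (K × K) ≃ₗ[K] (K × K), ∀ w, e w = hmat a b c d w := by
  let φ : K × K →ₗ[K] K × K := LinearMap.prod (a • LinearMap.fst K K K + b • LinearMap.snd K K K)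
    (c • LinearMap.fst K K K + d • LinearMap.snd K K K)
  have hi : Injective φ := by
    rw [injective_iff_map_eq_zero]
    intro w hw
    have h1 : a * w.1 + b * w.2 = 0 := congrArg Prod.fst hw
    have h2 : c * w.1 + d * w.2 = 0 := congrArg Prod.snd hw
    apply Prod.ext
    · apply mul_left_cancel₀ h
      simp only [Prod.fst_zero]
      linear_combination d * h1 - b * h2
    · apply mul_left_cancel₀ h
      simp only [Prod.snd_zero]
      linear_combination a * h2 - c * h1
  exact ⟨LinearEquiv.ofInjectiveEndo φ hi, fun w => rfl⟩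

lemma isUnit_lin {R : Type} [CommRing R] [Algebra K R] {t : R}
    (ht : ∀ a : K, IsUnit (t - algebraMap K R a)) {a b : K} (h : a ≠ 0 ∨ b ≠ 0) :
    IsUnit (algebraMap K R a + algebraMap K R b * t) := by
  by_cases hb : b = 0
  · have ha : a ≠ 0 := by tauto
    simpa [hb] using (IsUnit.mk0 a ha).map (algebraMap K R)
  · have : algebraMap K R a + algebraMap K R b * t =
        algebraMap K R b * (t - algebraMap K R (-a / b)) := by
      rw [mul_sub, ← map_mul, mul_div_cancel₀ _ hb, map_neg]; ring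
    rw [this]
    exact ((IsUnit.mk0 b hb).map (algebraMap K R)).mul (ht _)

section inter
variable {R R' : Type} [CommRing R] [Algebra K R] [CommRing R'] [Algebra K R']
  {t u : R} {φ : R →ₗ[K] K} {t' : R'} {φ' : R' →ₗ[K] K} {a b c d : K}
  (γ : (R × R) ≃ₗ[K] (R' × R'))

lemma compat_fst (h : ∀ x y, ωm t' φ' (γ x) (γ y) = hmat a b c d (ωm t φ x y)) (x y : R × R) :
    (ωm t' φ' (γ x) (γ y)).1 =
      φ ((algebraMap K R a + algebraMap K R b * t) * (x.1 * y.2 - y.1 * x.2)) := by
  rw [h, ωm_apply, hmat, add_mul, mul_assoc, ← Algebra.smul_def, ← Algebra.smul_def, map_add,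
    map_smul, map_smul, smul_eq_mul, smul_eq_mul]

lemma compat_snd (h : ∀ x y, ωm t' φ' (γ x) (γ y) = hmat a b c d (ωm t φ x y)) (x y : R × R) :
    (ωm t' φ' (γ x) (γ y)).2 =
      φ ((algebraMap K R c + algebraMap K R d * t) * (x.1 * y.2 - y.1 * x.2)) := by
  rw [h, ωm_apply, hmat, add_mul, mul_assoc, ← Algebra.smul_def, ← Algebra.smul_def, map_add,
    map_smul, map_smul, smul_eq_mul, smul_eq_mul]

lemma intertwine (hφ' : ∀ a, (∀ s, φ' (s * a) = 0) → a = 0)
    (hu : (algebraMap K R a + algebraMap K R b * t) * u = 1)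
    (h : ∀ x y, ωm t' φ' (γ x) (γ y) = hmat a b c d (ωm t φ x y)) (r : K[X]) (x : R × R) :
    γ (aeval ((algebraMap K R c + algebraMap K R d * t) * u) r • x) = aeval t' r • γ x := by
  have h1 : ∀ x, γ (((algebraMap K R c + algebraMap K R d * t) * u) • x) = t' • γ x := by
    intro x
    rw [← sub_eq_zero]
    apply (pencil_model t' hφ').nondeg
    intro y
    obtain ⟨y, rfl⟩ := γ.surjective y
    have h2 := (pencil_model t' hφ').snd (γ x) (γ y)
    rw [compat_snd γ h] at h2
    rw [map_sub, LinearMap.sub_apply, Prod.fst_sub, compat_fst γ h, sub_eq_zero]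
    refine Eq.trans ?_ h2
    congr 1
    simp only [Prod.smul_fst, Prod.smul_snd, smul_eq_mul]
    linear_combination ((algebraMap K R c + algebraMap K R d * t) * (x.1 * y.2 - y.1 * x.2)) * hu
  have h2 : ∀ (k : ℕ) x,
      γ (((algebraMap K R c + algebraMap K R d * t) * u) ^ k • x) = t' ^ k • γ x := by
    intro k
    induction k with
    | zero => simp
    | succ k ih => intro x; rw [pow_succ, mul_smul, ih, h1, ← mul_smul, ← pow_succ]
  induction r using Polynomial.induction_on' with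
  | add r s h3 h4 => rw [map_add, map_add, add_smul, add_smul, map_add, h3, h4]
  | monomial k e =>
    rw [aeval_monomial, aeval_monomial, mul_smul, mul_smul, algebraMap_smul, algebraMap_smul,
      map_smul, h2]

lemma aeval_eq_zero_of_compat (hφ' : ∀ a, (∀ s, φ' (s * a) = 0) → a = 0)
    (hu : (algebraMap K R a + algebraMap K R b * t) * u = 1)
    (h : ∀ x y, ωm t' φ' (γ x) (γ y) = hmat a b c d (ωm t φ x y)) {r : K[X]}
    (hr : aeval t' r = 0) : aeval ((algebraMap K R c + algebraMap K R d * t) * u) r = 0 := by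
  have := intertwine γ hφ' hu h r (1, 0)
  rw [hr, zero_smul, map_eq_zero_iff _ γ.injective] at this
  simpa using congrArg Prod.fst this

lemma fix_vec (hφ' : ∀ a, (∀ s, φ' (s * a) = 0) → a = 0)
    (hu : (algebraMap K R a + algebraMap K R b * t) * u = 1)
    (h : Compat (ωm t φ) (πm φ 1) (ωm t' φ') (πm φ' 1) γ (hmat a b c d)) :
    γ (algebraMap K R a * u, algebraMap K R b * u) = (1, 0) ∧
      γ (algebraMap K R c * u, algebraMap K R d * u) = (0, 1) := by
  have key : ∀ (e f : K) (y : R × R), (ωm t' φ' (γ y) (γ (algebraMap K R e * u, algebraMap K R f * u))).1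
      = e * -φ y.2 + f * φ y.1 := by
    intro e f y
    rw [compat_fst γ h.1, ← map_neg, ← smul_eq_mul e, ← smul_eq_mul f, ← map_smul, ← map_smul,
      ← map_add, Algebra.smul_def, Algebra.smul_def]
    congr 1
    linear_combination (y.1 * algebraMap K R f - algebraMap K R e * y.2) * hu
  constructor
  · rw [← sub_eq_zero]
    apply (pencil_model t' hφ').nondeg'
    intro y
    obtain ⟨y, rfl⟩ := γ.surjective y
    have := congrArg Prod.fst (h.2 y)
    rw [map_sub, Prod.fst_sub, key, ωm_apply]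
    simp only [πm_apply, hmat, one_mul] at this
    simp only [mul_zero, one_mul, zero_mul, mul_one, zero_sub, sub_zero, map_neg]
    linear_combination -this
  · rw [← sub_eq_zero]
    apply (pencil_model t' hφ').nondeg'
    intro y
    obtain ⟨y, rfl⟩ := γ.surjective y
    have := congrArg Prod.snd (h.2 y)
    rw [map_sub, Prod.fst_sub, key, ωm_apply]
    simp only [πm_apply, hmat, one_mul] at this
    simp only [mul_zero, one_mul, zero_mul, mul_one, zero_sub, sub_zero, map_neg]
    linear_combination -this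

end inter

lemma rep_cg {f g : K[X]} (h : Adm f g) : Rep (AdjoinRoot.root f) (cg h.monic g) f g := by
  have := nontrivial_adjoin h.pos
  obtain ⟨b, hb⟩ := exists_rep (cg h.monic g) (t := AdjoinRoot.root f) (a := f) (by simp)
  have h1 := hb.expands h.monic.ne_zero
  simp only [cg_pow] at h1
  rwa [h1.num_unique (expands_coef h.monic h.pos h.lt)] at hb

theorem odd_related {f g f' g' : K[X]} (h : Adm f g) (h' : Adm f' g') {a b c d : K}
    (hdet : a * d - b * c ≠ 0)
    (γ : (AdjoinRoot f × AdjoinRoot f) ≃ₗ[K] (AdjoinRoot f' × AdjoinRoot f'))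
    (hc : Compat (ωm (AdjoinRoot.root f) (cg h.monic g)) (πm (cg h.monic g) 1)
      (ωm (AdjoinRoot.root f') (cg h'.monic g')) (πm (cg h'.monic g') 1) γ (hmat a b c d)) :
    mob a b c d (f'.natDegree - 1) g' * f = g * mob a b c d f'.natDegree f' := by
  have := nontrivial_adjoin h.pos
  obtain ⟨u, hu⟩ := (isUnit_lin (isUnit_root_sub h.noroot) (a := a) (b := b) (by
    by_contra h0
    push Not at h0
    simp [h0.1, h0.2] at hdet)).exists_right_inv
  have hφ' := cg_nondeg h'.monic h'.cop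
  obtain ⟨h1, h2⟩ := fix_vec γ hφ' hu hc
  obtain ⟨b', hb⟩ := exists_rep (cg h.monic g ∘ₗ LinearMap.mulLeft K
      (algebraMap K (AdjoinRoot f) (a * d - b * c) * u))
    (aeval_eq_zero_of_compat γ hφ' hu hc.1 (r := f') (by simp))
  have h3 := hb.expands h'.monic.ne_zero
  have h4 : (fun k => (cg h.monic g ∘ₗ LinearMap.mulLeft K
      (algebraMap K (AdjoinRoot f) (a * d - b * c) * u))
      (((algebraMap K (AdjoinRoot f) c + algebraMap K (AdjoinRoot f) d * AdjoinRoot.root f) * u)
        ^ k)) = coef f' g' := by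
    ext k
    have h5 := intertwine γ hφ' hu hc.1 (X ^ k)
      (algebraMap K (AdjoinRoot f) a * u, algebraMap K (AdjoinRoot f) b * u)
    have h6 := compat_fst γ hc.1 (aeval ((algebraMap K (AdjoinRoot f) c +
      algebraMap K (AdjoinRoot f) d * AdjoinRoot.root f) * u) (X ^ k : K[X]) •
      (algebraMap K (AdjoinRoot f) a * u, algebraMap K (AdjoinRoot f) b * u))
      (algebraMap K (AdjoinRoot f) c * u, algebraMap K (AdjoinRoot f) d * u)
    rw [h5, h1, h2, ωm_apply] at h6
    simp only [map_pow, aeval_X, Prod.smul_mk, smul_eq_mul, mul_one, mul_zero, sub_zero,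
      cg_pow] at h6
    rw [h6, LinearMap.comp_apply, LinearMap.mulLeft_apply]
    congr 1
    rw [map_sub, map_mul, map_mul]
    linear_combination (-(algebraMap K (AdjoinRoot f) a * algebraMap K (AdjoinRoot f) d -
      algebraMap K (AdjoinRoot f) b * algebraMap K (AdjoinRoot f) c) * u *
      ((algebraMap K (AdjoinRoot f) c + algebraMap K (AdjoinRoot f) d * AdjoinRoot.root f) * u)
        ^ k) * hu
  rw [h4] at h3
  rw [h3.num_unique (expands_coef h'.monic h'.pos h'.lt)] at hb
  have := (rep_cg h).cross (hb.mob hu h'.pos)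
  linear_combination this

theorem odd_stab {f g : K[X]} (h : Adm f g)
    (γ : (AdjoinRoot f × AdjoinRoot f) ≃ₗ[K] (AdjoinRoot f × AdjoinRoot f))
    (hc : Compat (ωm (AdjoinRoot.root f) (cg h.monic g)) (πm (cg h.monic g) 1)
      (ωm (AdjoinRoot.root f) (cg h.monic g)) (πm (cg h.monic g) 1) γ (hmat 1 0 0 1))
    (v : AdjoinRoot f × AdjoinRoot f) : γ v = v := by
  have hφ := cg_nondeg h.monic h.cop
  have hu : (algebraMap K (AdjoinRoot f) 1 + algebraMap K (AdjoinRoot f) 0 * AdjoinRoot.root f)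
      * 1 = 1 := by simp
  obtain ⟨h1, h2⟩ := fix_vec γ hφ hu hc
  have h3 := intertwine γ hφ hu hc.1
  simp only [map_one, map_zero, mul_one, one_mul, zero_add, AdjoinRoot.aeval_eq] at h1 h2 h3
  obtain ⟨r, s⟩ := v
  obtain ⟨r, rfl⟩ := AdjoinRoot.mk_surjective r
  obtain ⟨s, rfl⟩ := AdjoinRoot.mk_surjective s
  have : (AdjoinRoot.mk f r, AdjoinRoot.mk f s) = AdjoinRoot.mk f r • (1, 0) +
      AdjoinRoot.mk f s • (0, 1) := by simp
  rw [this, map_add, h3, h3, h1, h2]

theorem odd_normal_form {V : Type} [AddCommGroup V] [Module K V] [FiniteDimensional K V]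
    [Nontrivial V] {ω : V →ₗ[K] V →ₗ[K] K × K} (h1 : ∀ v, ω v v = 0) (h2 : Camina ω)
    (π : V →ₗ[K] K × K) (h3 : ∀ γ : V ≃ₗ[K] V, Compat ω π ω π γ id → ∀ v, γ v = v) :
    ∃ (f g : K[X]) (h : Adm f g) (Ψ : (AdjoinRoot f × AdjoinRoot f) ≃ₗ[K] V),
      Compat (ωm (AdjoinRoot.root f) (cg h.monic g)) (πm (cg h.monic g) 1) ω π Ψ id := by
  obtain ⟨T, P⟩ := exists_pencil h1 h2
  obtain ⟨u₁, hu₁⟩ := P.exists_vec (LinearMap.fst K K K ∘ₗ π)
  obtain ⟨u₂, hu₂⟩ := P.exists_vec (LinearMap.snd K K K ∘ₗ π)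
  have hint : IsIntegral K T := Algebra.IsIntegral.isIntegral T
  have hf := minpoly.monic hint
  have h0 : ∀ v, aeval T (minpoly K T) v = 0 := fun v => by simp
  have hgen : ∀ v, ∃ r s : K[X], v = aeval T r u₁ + aeval T s u₂ := by
    have : LinearMap.range ((act T u₁ hf).coprod (act T u₂ hf)) = ⊤ := by
      by_contra hne
      obtain ⟨φ, hφ0, hφ⟩ := Submodule.exists_le_ker_of_lt_top _ (lt_top_iff_ne_top.2 hne)
      obtain ⟨v, hv⟩ := P.exists_vec φ
      obtain ⟨m, hm, hmv, hmin⟩ := exists_ann T v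
      obtain ⟨Ω, e1, e2, e3⟩ := P.exists_Om hm hmv
      obtain ⟨γ, e4, e5⟩ := P.transvection hm hmv e1 e2 e3 1
      have e6 := h3 γ ⟨e5, fun x => ?_⟩
      · apply hφ0
        ext x
        have e7 := e6 x
        obtain ⟨s, hs⟩ := AdjoinRoot.mk_surjective (Ω x)
        rw [e4, add_eq_left, one_mul, ← hs, act_mk hm hmv] at e7
        have e8 := e1 x 1
        rw [← hs, AdjoinRoot.mk_eq_zero.2 (hmin s e7), mul_zero, map_zero,
          ← map_one (AdjoinRoot.mk m), act_mk hm hmv] at e8
        rw [hv, LinearMap.zero_apply, e8]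
        simp
      · obtain ⟨s, hs⟩ := AdjoinRoot.mk_surjective (1 * Ω x)
        rw [e4, ← hs, act_mk hm hmv, map_add, id, add_eq_left]
        apply Prod.ext
        · have := hφ ⟨(AdjoinRoot.mk _ s, 0), rfl⟩
          rw [LinearMap.mem_ker, LinearMap.coprod_apply, map_zero, add_zero, act_mk hf (h0 _),
            hv] at this
          refine (hu₁ _).trans ?_
          rw [P.adj_aeval, P.skew, Prod.fst_neg, this, neg_zero, Prod.fst_zero]
        · have := hφ ⟨(0, AdjoinRoot.mk _ s), rfl⟩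
          rw [LinearMap.mem_ker, LinearMap.coprod_apply, map_zero, zero_add, act_mk hf (h0 _),
            hv] at this
          refine (hu₂ _).trans ?_
          rw [P.adj_aeval, P.skew, Prod.fst_neg, this, neg_zero, Prod.snd_zero]
    intro v
    obtain ⟨⟨r, s⟩, rfl⟩ := LinearMap.range_eq_top.1 this v
    obtain ⟨r, rfl⟩ := AdjoinRoot.mk_surjective r
    obtain ⟨s, rfl⟩ := AdjoinRoot.mk_surjective s
    exact ⟨r, s, by rw [LinearMap.coprod_apply, act_mk hf (h0 _), act_mk hf (h0 _)]⟩
  obtain ⟨g, hg, hcop, Ψ, hΨ, hω⟩ := P.normal_form hf (minpoly.aeval K T)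
    (fun r hr => minpoly.dvd K T hr) u₁ u₂ hgen
  refine ⟨minpoly K T, g, ⟨hf, minpoly.natDegree_pos hint, P.no_root h2, hg, hcop⟩, Ψ, hω,
    fun x => ?_⟩
  have e1 : Ψ (1, 0) = u₁ := by simpa using hΨ 1 0
  have e2 : Ψ (0, 1) = u₂ := by simpa using hΨ 0 1
  apply Prod.ext
  · refine (hu₁ _).trans ?_
    rw [← e1, hω, ωm_apply]
    simp [πm_apply]
  · refine (hu₂ _).trans ?_
    rw [← e2, hω, ωm_apply]
    simp [πm_apply]

end Pool.Agent.P.MP_0b48ca_al
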