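import Pool.Agent.P.MP_0b48ca_al.Poly
import Pool.Agent.P.MP_0b48ca_al.Ext2

/-! Pencils of alternating forms: the operator `T`, transvections, the cyclic model. -/

namespace Pool.Agent.P.MP_0b48ca_al

open Polynomial Function

variable {K : Type} [Field K]

lemma exists_dual {V : Type} [AddCommGroup V] [Module K V] [FiniteDimensional K V]
    (B : V →ₗ[K] V →ₗ[K] K) (hB : ∀ u, (∀ v, B u v = 0) → u = 0) :
    ∃ Φ : (V →ₗ[K] K) →ₗ[K] V, ∀ φ v, B (Φ φ) v = φ v := by
  have hi : Injective B := by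
    rw [injective_iff_map_eq_zero]
    intro u hu
    exact hB u fun v => by rw [hu, LinearMap.zero_apply]
  let e : V ≃ₗ[K] Module.Dual K V := B.linearEquivOfInjective hi Subspace.dual_finrank_eq.symm
  refine ⟨e.symm.toLinearMap, fun φ v => ?_⟩
  change e (e.symm φ) v = φ v
  rw [LinearEquiv.apply_symm_apply]

section tau
variable {m : K[X]}

/-- top coefficient of the remainder -/
noncomputable def tau (hm : m.Monic) : AdjoinRoot m →ₗ[K] K :=
  (lcoeff K (m.natDegree - 1)) ∘ₗ AdjoinRoot.modByMonicHom hm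

lemma tau_mk (hm : m.Monic) (h : K[X]) :
    tau hm (AdjoinRoot.mk m h) = (h %ₘ m).coeff (m.natDegree - 1) := rfl

lemma tau_nondeg (hm : m.Monic) (a : AdjoinRoot m) (h : ∀ s, tau hm (s * a) = 0) : a = 0 := by
  by_contra ha
  obtain ⟨r, hr, rfl⟩ : ∃ r : K[X], r.degree < m.degree ∧ AdjoinRoot.mk m r = a := by
    obtain ⟨r, rfl⟩ := AdjoinRoot.mk_surjective a
    exact ⟨r %ₘ m, degree_modByMonic_lt _ hm, AdjoinRoot.mk_leftInverse hm (AdjoinRoot.mk m r)⟩
  have hr0 : r ≠ 0 := by rintro rfl; simp at ha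
  have h1 := natDegree_lt_natDegree hr0 hr
  have h2 := h (AdjoinRoot.mk m (X ^ (m.natDegree - 1 - r.natDegree)))
  rw [← map_mul, tau_mk, (modByMonic_eq_self_iff hm).2, coeff_X_pow_mul', if_pos (by omega),
    show m.natDegree - 1 - (m.natDegree - 1 - r.natDegree) = r.natDegree by omega] at h2
  · exact hr0 (leadingCoeff_eq_zero.1 h2)
  · rw [degree_mul, degree_X_pow, degree_eq_natDegree hr0, degree_eq_natDegree hm.ne_zero]
    norm_cast
    omega

lemma tau_dual (hm : m.Monic) : ∃ Φ : (AdjoinRoot m →ₗ[K] K) →ₗ[K] AdjoinRoot m,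
    ∀ φ s, tau hm (s * Φ φ) = φ s := by
  have := (AdjoinRoot.powerBasis' hm).finite
  obtain ⟨Φ, h⟩ := exists_dual ((LinearMap.mul K (AdjoinRoot m)).compr₂ (tau hm)) (by
    intro u hu
    apply tau_nondeg hm
    intro s
    rw [mul_comm]
    exact hu s)
  exact ⟨Φ, fun φ s => by rw [mul_comm]; exact h φ s⟩

lemma tau_ext (hm : m.Monic) {a b : AdjoinRoot m}
    (h : ∀ s : K[X], tau hm (AdjoinRoot.mk m s * a) = tau hm (AdjoinRoot.mk m s * b)) : a = b := by
  rw [← sub_eq_zero]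
  apply tau_nondeg hm
  intro s
  obtain ⟨s, rfl⟩ := AdjoinRoot.mk_surjective s
  rw [mul_sub, map_sub, h, sub_self]

end tau

variable {V : Type} [AddCommGroup V] [Module K V]

/-- `s ↦ s(T) v` -/
noncomputable def act (T : Module.End K V) (v : V) {m : K[X]} (hm : m.Monic) :
    AdjoinRoot m →ₗ[K] V :=
  (LinearMap.applyₗ v) ∘ₗ (aeval T).toLinearMap ∘ₗ AdjoinRoot.modByMonicHom hm

lemma act_mk {T : Module.End K V} {v : V} {m : K[X]} (hm : m.Monic) (h : aeval T m v = 0)
    (r : K[X]) : act T v hm (AdjoinRoot.mk m r) = aeval T r v := by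
  change aeval T (r %ₘ m) v = _
  rw [modByMonic_eq_sub_mul_div, map_sub, mul_comm, map_mul, LinearMap.sub_apply,
    Module.End.mul_apply, h, map_zero, sub_zero]

lemma aeval_act {T : Module.End K V} {v : V} {m : K[X]} (hm : m.Monic) (h : aeval T m v = 0)
    (r : K[X]) (a : AdjoinRoot m) :
    aeval T r (act T v hm a) = act T v hm (AdjoinRoot.mk m r * a) := by
  obtain ⟨s, rfl⟩ := AdjoinRoot.mk_surjective a
  rw [← map_mul, act_mk hm h, act_mk hm h, map_mul, Module.End.mul_apply]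

lemma exists_ann [FiniteDimensional K V] (T : Module.End K V) (v : V) :
    ∃ m : K[X], m.Monic ∧ aeval T m v = 0 ∧ ∀ r, aeval T r v = 0 → m ∣ r := by
  let I : Ideal K[X] :=
    { carrier := {r | aeval T r v = 0}
      add_mem' := by
        intro a b ha hb
        simp only [Set.mem_ofPred_eq] at *
        rw [map_add, LinearMap.add_apply, ha, hb, add_zero]
      zero_mem' := by simp
      smul_mem' := by
        intro a b hb
        simp only [Set.mem_ofPred_eq] at *
        rw [smul_eq_mul, map_mul, Module.End.mul_apply, hb, map_zero] }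
  obtain ⟨g, hg⟩ := (IsPrincipalIdealRing.principal I).principal
  have hmem : ∀ r, aeval T r v = 0 ↔ g ∣ r := by
    intro r
    rw [← Ideal.mem_span_singleton]
    change r ∈ I ↔ _
    rw [hg]
  have hg0 : g ≠ 0 := by
    rintro rfl
    have := (hmem (minpoly K T)).1 (by simp)
    exact minpoly.ne_zero_of_finite K T (zero_dvd_iff.1 this)
  classical
  exact ⟨normalize g, monic_normalize hg0, (hmem _).2 (dvd_normalize_iff.2 dvd_rfl),
    fun r hr => normalize_dvd_iff.2 ((hmem r).1 hr)⟩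

/-- a pair of alternating forms with the first nondegenerate and the second given by `T` -/
structure Pencil (ω : V →ₗ[K] V →ₗ[K] K × K) (T : Module.End K V) : Prop where
  alt : ∀ v, ω v v = 0
  nondeg : ∀ u, (∀ v, (ω u v).1 = 0) → u = 0
  snd : ∀ u v, (ω u v).2 = (ω (T u) v).1

lemma exists_pencil [FiniteDimensional K V] {ω : V →ₗ[K] V →ₗ[K] K × K} (h1 : ∀ v, ω v v = 0)
    (h2 : Camina ω) : ∃ T, Pencil ω T := by
  have hn : ∀ u, (∀ v, (ω u v).1 = 0) → u = 0 := by
    intro u hu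
    by_contra h0
    obtain ⟨v, hv⟩ := h2 u h0 (1, 0)
    have := hu v
    rw [hv] at this
    exact one_ne_zero this
  obtain ⟨Φ, hΦ⟩ := exists_dual (ω.compr₂ (LinearMap.fst K K K)) hn
  exact ⟨Φ ∘ₗ ω.compr₂ (LinearMap.snd K K K), h1, hn, 
    fun u v => (hΦ (ω.compr₂ (LinearMap.snd K K K) u) v).symm⟩

namespace Pencil
variable {ω : V →ₗ[K] V →ₗ[K] K × K} {T : Module.End K V} (P : Pencil ω T)
include P

lemma skew (u v : V) : ω u v = -ω v u := by
  have := P.alt (u + v)
  simp only [map_add, LinearMap.add_apply, P.alt, zero_add, add_zero] at this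
  exact eq_neg_of_add_eq_zero_right this

lemma adj (u v : V) : (ω (T u) v).1 = (ω u (T v)).1 := by
  rw [← P.snd, P.skew u v, P.skew u (T v), Prod.snd_neg, Prod.fst_neg, P.snd]

lemma adj_pow (k : ℕ) (u v : V) : (ω ((T ^ k) u) v).1 = (ω u ((T ^ k) v)).1 := by
  induction k generalizing u v with
  | zero => simp
  | succ k ih => rw [pow_succ, Module.End.mul_apply, ih, P.adj, ← Module.End.mul_apply, ← pow_succ',
      pow_succ]

lemma adj_aeval (r : K[X]) (u v : V) : (ω (aeval T r u) v).1 = (ω u (aeval T r v)).1 := by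
  induction r using Polynomial.induction_on' with
  | add r s h1 h2 => simp [h1, h2]
  | monomial k a => simp [aeval_monomial, P.adj_pow]

lemma iso_pow (k : ℕ) (v : V) : (ω ((T ^ k) v) v).1 = 0 := by
  obtain ⟨j, rfl | rfl⟩ := Nat.even_or_odd' k
  · rw [two_mul, pow_add, Module.End.mul_apply, P.adj_pow, P.alt]; rfl
  · rw [two_mul, add_assoc, pow_add, Module.End.mul_apply, P.adj_pow, pow_succ',
      Module.End.mul_apply, ← P.snd, P.alt]; rfl

lemma iso (r s : K[X]) (v : V) : (ω (aeval T r v) (aeval T s v)).1 = 0 := by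
  rw [← P.adj_aeval, ← Module.End.mul_apply, ← map_mul]
  induction s * r using Polynomial.induction_on' with
  | add r s h1 h2 => simp [h1, h2]
  | monomial k a => simp [aeval_monomial, P.iso_pow]

lemma nondeg' (v : V) (h : ∀ u, (ω u v).1 = 0) : v = 0 :=
  P.nondeg v fun u => by rw [P.skew, Prod.fst_neg, h, neg_zero]

lemma exists_vec [FiniteDimensional K V] (φ : V →ₗ[K] K) : ∃ u, ∀ v, φ v = (ω v u).1 := by
  obtain ⟨Φ, hΦ⟩ := exists_dual (ω.compr₂ (LinearMap.fst K K K)) P.nondeg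
  refine ⟨Φ (-φ), fun v => ?_⟩
  have : (ω (Φ (-φ)) v).1 = -φ v := hΦ (-φ) v
  rw [P.skew, Prod.fst_neg, this, neg_neg]

lemma no_root [FiniteDimensional K V] (hc : Camina ω) (a : K) : (minpoly K T).eval a ≠ 0 := by
  intro h
  obtain ⟨v, hv⟩ := (Module.End.hasEigenvalue_of_isRoot h).exists_hasEigenvector
  obtain ⟨u, hu⟩ := hc v hv.2 (0, 1)
  have h1 := P.snd v u
  rw [hv.apply_eq_smul, map_smul, LinearMap.smul_apply, hu] at h1
  simp at h1

/-- the `K[T]`-valued pairing with `v` -/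
lemma exists_Om {v : V} {m : K[X]} (hm : m.Monic) (h : aeval T m v = 0) :
    ∃ Ω : V →ₗ[K] AdjoinRoot m, (∀ x a, tau hm (a * Ω x) = (ω x (act T v hm a)).1) ∧
      (∀ x r, Ω (aeval T r x) = AdjoinRoot.mk m r * Ω x) ∧ ∀ a, Ω (act T v hm a) = 0 := by
  obtain ⟨Φ, hΦ⟩ := tau_dual hm
  let Ω : V →ₗ[K] AdjoinRoot m :=
    Φ ∘ₗ (ω.compr₂ (LinearMap.fst K K K)).compl₂ (act T v hm)
  have h1 : ∀ x a, tau hm (a * Ω x) = (ω x (act T v hm a)).1 := fun x a => hΦ _ a
  refine ⟨Ω, h1, fun x r => tau_ext hm fun s => ?_, fun a => tau_nondeg hm _ fun s => ?_⟩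
  · rw [← mul_assoc, h1, h1, P.adj_aeval, aeval_act hm h, mul_comm]
  · obtain ⟨a, rfl⟩ := AdjoinRoot.mk_surjective a
    obtain ⟨s, rfl⟩ := AdjoinRoot.mk_surjective s
    rw [h1, act_mk hm h, act_mk hm h, P.iso]

/-- transvections of the pencil -/
lemma transvection {v : V} {m : K[X]} (hm : m.Monic) (h : aeval T m v = 0)
    {Ω : V →ₗ[K] AdjoinRoot m} (h1 : ∀ x a, tau hm (a * Ω x) = (ω x (act T v hm a)).1)
    (h2 : ∀ x r, Ω (aeval T r x) = AdjoinRoot.mk m r * Ω x) (h3 : ∀ a, Ω (act T v hm a) = 0)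
    (r : AdjoinRoot m) :
    ∃ γ : V ≃ₗ[K] V, (∀ x, γ x = x + act T v hm (r * Ω x)) ∧ ∀ x y, ω (γ x) (γ y) = ω x y := by
  let N : V →ₗ[K] V := act T v hm ∘ₗ LinearMap.mulLeft K r ∘ₗ Ω
  have hN : ∀ x, N x = act T v hm (r * Ω x) := fun x => rfl
  have hNN : ∀ x, N (N x) = 0 := by
    intro x
    rw [hN, hN, h3, mul_zero, map_zero]
  have hfst : ∀ x y, (ω (x + N x) (y + N y)).1 = (ω x y).1 := by
    intro x y
    simp only [map_add, LinearMap.add_apply, Prod.fst_add]
    rw [P.skew (N x) y, Prod.fst_neg, hN x, hN y, ← h1, ← h1, ← h1, h3, mul_zero, map_zero,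
      mul_right_comm r (Ω x)]
    ring
  refine ⟨LinearEquiv.ofLinearMap (LinearMap.id + N) (LinearMap.id - N) ?_ ?_, fun x => rfl, ?_⟩
  · ext x; simp [hNN]
  · ext x; simp [hNN]
  · intro x y
    change ω (x + N x) (y + N y) = ω x y
    apply Prod.ext (hfst x y)
    rw [P.snd, P.snd, ← hfst (T x) y, map_add T]
    congr 4
    have e1 := aeval_act hm h X (r * Ω x)
    have e2 := h2 x X
    rw [aeval_X] at e1 e2
    rw [hN, hN, e1, e2, mul_left_comm]

end Pencil

section model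
variable {R : Type} [CommRing R] [Algebra K R]

/-- the bilinear cocycle of the model -/
noncomputable def βm (t : R) (c : R →ₗ[K] K) : R × R →ₗ[K] R × R →ₗ[K] K × K :=
  LinearMap.mk₂ K (fun u v => (c (u.1 * v.2), c (t * (u.1 * v.2))))
    (by intro u u' v; simp [add_mul, mul_add])
    (by intro a u v; simp)
    (by intro u v v'; simp [mul_add])
    (by intro a u v; simp)

/-- the commutator form of the model -/
noncomputable def ωm (t : R) (c : R →ₗ[K] K) : R × R →ₗ[K] R × R →ₗ[K] K × K :=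
  βm t c - (βm t c).flip

lemma βm_apply (t : R) (c : R →ₗ[K] K) (u v : R × R) :
    βm t c u v = (c (u.1 * v.2), c (t * (u.1 * v.2))) := rfl

lemma ωm_apply (t : R) (c : R →ₗ[K] K) (u v : R × R) :
    ωm t c u v = (c (u.1 * v.2 - v.1 * u.2), c (t * (u.1 * v.2 - v.1 * u.2))) := by
  simp [ωm, βm_apply, mul_sub]

/-- the linear part of the power map of the model -/
noncomputable def πm (c : R →ₗ[K] K) (ε : K) : R × R →ₗ[K] K × K :=
  LinearMap.prod (-(ε • c) ∘ₗ LinearMap.snd K R R) (c ∘ₗ LinearMap.fst K R R)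

lemma πm_apply (c : R →ₗ[K] K) (ε : K) (u : R × R) : πm c ε u = (-(ε * c u.2), c u.1) := by
  simp [πm]

lemma pencil_model (t : R) {c : R →ₗ[K] K} (hc : ∀ a, (∀ s, c (s * a) = 0) → a = 0) :
    Pencil (ωm t c) (LinearMap.prodMap (LinearMap.mulLeft K t) (LinearMap.mulLeft K t)) where
  alt := by intro v; simp [ωm_apply]
  nondeg := by
    intro u hu
    apply Prod.ext
    · apply hc
      intro s
      simpa [ωm_apply, mul_comm] using hu (0, s)
    · apply hc
      intro s
      simpa [ωm_apply] using hu (s, 0)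
  snd := by
    intro u v
    simp only [ωm_apply, LinearMap.prodMap_apply, LinearMap.mulLeft_apply]
    congr 1
    ring

lemma camina_model {t : R} {c : R →ₗ[K] K} (hc : ∀ a, (∀ s, c (s * a) = 0) → a = 0)
    (ht : ∀ a : K, IsUnit (t - algebraMap K R a)) : Camina (ωm t c) := by
  intro v hv
  rw [← LinearMap.range_eq_top]
  by_contra hne
  obtain ⟨φ, hφ0, hφ⟩ := Submodule.exists_le_ker_of_lt_top _ (lt_top_iff_ne_top.2 hne)
  have hφ' : ∀ w : K × K, φ w = w.1 * φ (1, 0) + w.2 * φ (0, 1) := by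
    intro w
    rw [← smul_eq_mul, ← smul_eq_mul, ← map_smul, ← map_smul, ← map_add]
    simp
  set a := φ (1, 0)
  set b := φ (0, 1)
  have hu : IsUnit (algebraMap K R a + algebraMap K R b * t) := by
    by_cases hb : b = 0
    · have ha : a ≠ 0 := by
        intro ha
        apply hφ0
        ext <;> simpa
      simpa [hb] using (IsUnit.mk0 a ha).map (algebraMap K R)
    · have : algebraMap K R a + algebraMap K R b * t =
          algebraMap K R b * (t - algebraMap K R (-a / b)) := by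
        rw [mul_sub, ← map_mul, mul_div_cancel₀ _ hb, map_neg]; ring
      rw [this]
      exact ((IsUnit.mk0 b hb).map (algebraMap K R)).mul (ht _)
  have key : ∀ u : R × R,
      c ((algebraMap K R a + algebraMap K R b * t) * (v.1 * u.2 - u.1 * v.2)) = 0 := by
    intro u
    have := hφ (LinearMap.mem_range_self _ u)
    rw [LinearMap.mem_ker, hφ', ωm_apply] at this
    rw [add_mul, mul_assoc, ← Algebra.smul_def, ← Algebra.smul_def, map_add, map_smul, map_smul,
      smul_eq_mul, smul_eq_mul, mul_comm a, mul_comm b]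
    exact this
  apply hv
  apply Prod.ext
  · apply hu.mul_right_eq_zero.1
    apply hc
    intro s
    rw [← key (0, s)]
    congr 1; ring
  · apply hu.mul_right_eq_zero.1
    apply hc
    intro s
    rw [← key (-s, 0)]
    congr 1; ring

end model

lemma isUnit_root_sub {f : K[X]} (hf : ∀ a, f.eval a ≠ 0) (a : K) :
    IsUnit (AdjoinRoot.root f - algebraMap K (AdjoinRoot f) a) := by
  obtain ⟨q, hq⟩ := X_sub_C_dvd_sub_C_eval (p := f) (a := a)
  have := congrArg (AdjoinRoot.mk f) hq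
  rw [map_sub, map_mul, map_sub, AdjoinRoot.mk_self, AdjoinRoot.mk_X, AdjoinRoot.mk_C,
    AdjoinRoot.mk_C, zero_sub] at this
  exact isUnit_of_mul_isUnit_left
    (this ▸ ((IsUnit.mk0 _ (hf a)).map (AdjoinRoot.of f)).neg)

section cg
variable {f : K[X]}

/-- the functional attached to `g / f` -/
noncomputable def cg (hf : f.Monic) (g : K[X]) : AdjoinRoot f →ₗ[K] K :=
  tau hf ∘ₗ LinearMap.mulLeft K (AdjoinRoot.mk f g)

lemma cg_apply (hf : f.Monic) (g : K[X]) (a : AdjoinRoot f) :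
    cg hf g a = tau hf (AdjoinRoot.mk f g * a) := rfl

lemma cg_pow (hf : f.Monic) (g : K[X]) (k : ℕ) :
    cg hf g (AdjoinRoot.root f ^ k) = coef f g k := by
  rw [cg_apply, ← AdjoinRoot.mk_X, ← map_pow, ← map_mul, tau_mk, coef]

lemma isUnit_mk_iff (g : K[X]) : IsUnit (AdjoinRoot.mk f g) ↔ IsCoprime f g := by
  constructor
  · intro h
    obtain ⟨u, hu⟩ := h.exists_left_inv
    obtain ⟨u, rfl⟩ := AdjoinRoot.mk_surjective u
    rw [← map_mul, ← map_one (AdjoinRoot.mk f), AdjoinRoot.mk_eq_mk] at hu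
    obtain ⟨q, hq⟩ := hu
    exact ⟨-q, u, by linear_combination hq⟩
  · rintro ⟨a, b, h⟩
    have := congrArg (AdjoinRoot.mk f) h
    rw [map_add, map_mul, map_mul, AdjoinRoot.mk_self, mul_zero, zero_add, map_one] at this
    exact IsUnit.of_mul_eq_one_right _ this

lemma cg_nondeg (hf : f.Monic) {g : K[X]} (h : IsCoprime f g) (a : AdjoinRoot f)
    (ha : ∀ s, cg hf g (s * a) = 0) : a = 0 := by
  apply ((isUnit_mk_iff g).2 h).mul_right_eq_zero.1
  apply tau_nondeg hf
  intro s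
  rw [← ha s, cg_apply, mul_left_comm]

lemma coprime_of_nondeg (hf : f.Monic) {g : K[X]}
    (h : ∀ a, (∀ s, cg hf g (s * a) = 0) → a = 0) : IsCoprime f g := by
  rw [← isUnit_mk_iff]
  have := (AdjoinRoot.powerBasis' hf).finite
  have hi : Injective (LinearMap.mulLeft K (AdjoinRoot.mk f g)) := by
    rw [injective_iff_map_eq_zero]
    intro a ha
    apply h
    intro s
    rw [cg_apply, mul_left_comm, show AdjoinRoot.mk f g * a = 0 from ha, mul_zero, map_zero]
  obtain ⟨u, hu⟩ := LinearMap.injective_iff_surjective.1 hi 1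
  exact IsUnit.of_mul_eq_one _ hu

lemma exists_cg (hf : f.Monic) (c : AdjoinRoot f →ₗ[K] K) :
    ∃ g : K[X], g.degree < f.degree ∧ c = cg hf g := by
  obtain ⟨Φ, hΦ⟩ := tau_dual hf
  obtain ⟨g, hg⟩ := AdjoinRoot.mk_surjective (Φ c)
  refine ⟨g %ₘ f, degree_modByMonic_lt _ hf, ?_⟩
  ext1 s
  rw [cg_apply, ← hΦ, ← hg, mul_comm]
  congr 2
  exact (AdjoinRoot.mk_leftInverse hf (AdjoinRoot.mk f g)).symm

lemma nontrivial_adjoin (h0 : 0 < f.natDegree) : Nontrivial (AdjoinRoot f) :=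
  AdjoinRoot.nontrivial f (natDegree_pos_iff_degree_pos.1 h0).ne'

end cg

theorem Pencil.normal_form [FiniteDimensional K V] {ω : V →ₗ[K] V →ₗ[K] K × K}
    {T : Module.End K V} (P : Pencil ω T) {f : K[X]} (hf : f.Monic) (hT : aeval T f = 0)
    (hmin : ∀ r, aeval T r = 0 → f ∣ r) (u₁ u₂ : V)
    (hgen : ∀ v, ∃ r s : K[X], v = aeval T r u₁ + aeval T s u₂) :
    ∃ g : K[X], g.degree < f.degree ∧ IsCoprime f g ∧
      ∃ Ψ : (AdjoinRoot f × AdjoinRoot f) ≃ₗ[K] V,
        (∀ r s, Ψ (AdjoinRoot.mk f r, AdjoinRoot.mk f s) = aeval T r u₁ + aeval T s u₂) ∧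
        ∀ x y, ω (Ψ x) (Ψ y) = ωm (AdjoinRoot.root f) (cg hf g) x y := by
  have h0 : ∀ v, aeval T f v = 0 := fun v => by rw [hT, LinearMap.zero_apply]
  obtain ⟨g, hg, hc⟩ := exists_cg hf
    (LinearMap.fst K K K ∘ₗ ω.flip u₂ ∘ₗ act T u₁ hf)
  have hc' : ∀ r, cg hf g (AdjoinRoot.mk f r) = (ω (aeval T r u₁) u₂).1 := by
    intro r
    rw [← hc, ← act_mk hf (h0 u₁)]
    rfl
  let Ψ : (AdjoinRoot f × AdjoinRoot f) →ₗ[K] V := (act T u₁ hf).coprod (act T u₂ hf)
  have hΨ : ∀ r s, Ψ (AdjoinRoot.mk f r, AdjoinRoot.mk f s) = aeval T r u₁ + aeval T s u₂ := by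
    intro r s
    rw [LinearMap.coprod_apply, act_mk hf (h0 _), act_mk hf (h0 _)]
  have hfst : ∀ r s r' s' : K[X], (ω (aeval T r u₁ + aeval T s u₂) (aeval T r' u₁ + aeval T s' u₂)).1
      = cg hf g (AdjoinRoot.mk f (r * s' - r' * s)) := by
    intro r s r' s'
    simp only [map_add, LinearMap.add_apply, Prod.fst_add, P.iso, zero_add, add_zero]
    rw [map_sub, map_sub, hc', hc', P.skew (aeval T s u₂), Prod.fst_neg, ← P.adj_aeval,
      ← P.adj_aeval, mul_comm r, mul_comm r', map_mul, map_mul, Module.End.mul_apply,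
      Module.End.mul_apply]
    ring
  have hω : ∀ x y, ω (Ψ x) (Ψ y) = ωm (AdjoinRoot.root f) (cg hf g) x y := by
    rintro ⟨r, s⟩ ⟨r', s'⟩
    obtain ⟨r, rfl⟩ := AdjoinRoot.mk_surjective r
    obtain ⟨s, rfl⟩ := AdjoinRoot.mk_surjective s
    obtain ⟨r', rfl⟩ := AdjoinRoot.mk_surjective r'
    obtain ⟨s', rfl⟩ := AdjoinRoot.mk_surjective s'
    rw [hΨ, hΨ, ωm_apply]
    apply Prod.ext
    · rw [hfst]; simp
    · have : T (aeval T r u₁ + aeval T s u₂) = aeval T (X * r) u₁ + aeval T (X * s) u₂ := by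
        simp
      rw [P.snd, this, hfst]
      congr 1
      simp only [map_sub, map_mul, AdjoinRoot.mk_X]
      ring
  have hnd : ∀ a, (∀ s, cg hf g (s * a) = 0) → a = 0 := by
    intro a ha
    obtain ⟨a, rfl⟩ := AdjoinRoot.mk_surjective a
    have h1 : aeval T a u₁ = 0 := by
      apply P.nondeg
      intro v
      obtain ⟨r, s, rfl⟩ := hgen v
      have := hfst a 0 r s
      rw [map_zero, LinearMap.zero_apply, add_zero, mul_zero, sub_zero, map_mul, mul_comm,
        ha] at this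
      exact this
    have h2 : aeval T a u₂ = 0 := by
      apply P.nondeg
      intro v
      obtain ⟨r, s, rfl⟩ := hgen v
      have := hfst 0 a r s
      rw [map_zero, LinearMap.zero_apply, zero_add, zero_mul, zero_sub, map_neg, map_neg, map_mul,
        ha, neg_zero] at this
      exact this
    rw [AdjoinRoot.mk_eq_zero]
    apply hmin
    ext v
    obtain ⟨r, s, rfl⟩ := hgen v
    rw [map_add, ← Module.End.mul_apply, ← Module.End.mul_apply, ← map_mul, ← map_mul,
      mul_comm a, mul_comm a, map_mul, map_mul, Module.End.mul_apply, Module.End.mul_apply, h1, h2]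
    simp
  refine ⟨g, hg, coprime_of_nondeg hf hnd, LinearEquiv.ofBijective Ψ ⟨?_, ?_⟩, hΨ, hω⟩
  · rw [injective_iff_map_eq_zero]
    intro x hx
    apply (pencil_model (AdjoinRoot.root f) hnd).nondeg
    intro y
    rw [← hω, hx, map_zero, LinearMap.zero_apply, Prod.fst_zero]
  · intro v
    obtain ⟨r, s, rfl⟩ := hgen v
    exact ⟨_, hΨ r s⟩

end Pool.Agent.P.MP_0b48ca_al
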