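import Pool.Agent.P.MP_0b48ca_al.Examples

/-!
Complete classification, for every prime `p`, of the finite `p`-groups `G` of nilpotency class 2
with commutator subgroup `C_p × C_p` and `Aut G = Aut_c G`.
-/

namespace Pool.Agent.P.MP_0b48ca_al.RankTwoOld

open Pool.Agent.P.MP_0b48ca_al Polynomial

theorem result (p : ℕ) [Fact p.Prime] :
    (∀ (G : Type) [Group G], RankTwo p G →
      (AllClassPreserving G ↔
        ∃ f g : (ZMod p)[X], Admissible f g ∧ Rigid f g ∧ Nonempty (G ≃* Grp f g))) ∧
    (∀ f g : (ZMod p)[X], Admissible f g →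
      RankTwo p (Grp f g) ∧ Nat.card (Grp f g) = p ^ (2 * f.natDegree + 2)) ∧
    (∀ f g f' g' : (ZMod p)[X], Admissible f g → Admissible f' g' →
      (Nonempty (Grp f g ≃* Grp f' g') ↔
        ∃ a b c d : ZMod p, a * d - b * c ≠ 0 ∧ Related a b c d f g f' g')) ∧
    (∃ f g : (ZMod p)[X], Admissible f g ∧ Rigid f g ∧ f.natDegree = if p = 2 then 5 else 3) := by
  refine ⟨fun G _ hG => part_two hG, fun f g h => part_one h, fun f g f' g' h h' => part_three h h',
    ?_⟩
  split_ifs with h
  · subst h
    exact example_two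
  · exact example_odd h

end Pool.Agent.P.MP_0b48ca_al.RankTwoOld
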